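import Pool.Agent.H78.UN.Star

set_option autoImplicit false

/-!
PROJECT UN (MP_bf82d2_ag, uniformisation), module Adj (helper52): two adjacent collisions of compact type.

`t 1` is central.  `e_a = 3` or `e_b = 3`: `G` is abelian.  `(4, 6)`, `(6, 4)`: `ζ² = 5 + 2 √6 > 8`.  `(4, 4)`, `(6, 6)`:
equality in the bounds of Star, and `f` is determined by `f 1` and `f (t 0)` or `f (t 1)`.
-/

namespace Pool.Agent.H78.UN

open Finset Module
open Pool.Agent.H52.VC (RC mem_RC)
open Pool.Agent.H78.WL (sm)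

variable {G : Type} [Group G] [Fintype G]

/-- the pair `f x = f (x r) = 0` is equivalent to the one at `x g` -/
def Inv2 (f : G → ℂ) (r g : G) : Prop :=
  ∀ x, (f x = 0 ∧ f (x * r) = 0) ↔ (f (x * g) = 0 ∧ f (x * g * r) = 0)

theorem Adj_dim (t : Fin 4 → G) (hp : t 0 * t 1 * t 2 * t 3 = 1)
    (hg : Subgroup.closure (Set.range t) = ⊤) (r : G) (R : Submodule ℂ (G → ℂ))
    (h : ∀ f ∈ R, Inv2 f r (t 0) ∧ Inv2 f r (t 1) ∧ Inv2 f r (t 0 * t 2)) : finrank ℂ R ≤ 2 := by
  classical
  have hinj : ∀ f ∈ R, f 1 = 0 → f r = 0 → f = 0 := by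
    intro f hf hf1 hf2
    obtain ⟨k0, k1, kc⟩ := h f hf
    let K : Subgroup G :=
      { carrier := {g | Inv2 f r g}
        mul_mem' := by
          intro g k hg hk x
          rw [hg x, hk (x * g), mul_assoc x g k]
        one_mem' := by
          intro x
          rw [mul_one]
        inv_mem' := by
          intro g hg x
          have h2 := hg (x * g⁻¹)
          rw [inv_mul_cancel_right] at h2
          exact h2.symm }
    have k0' : t 0 ∈ K := k0
    have k1' : t 1 ∈ K := k1
    have k2 : t 2 ∈ K := by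
      have h2 := K.mul_mem (K.inv_mem k0') (show t 0 * t 2 ∈ K from kc)
      rwa [inv_mul_cancel_left] at h2
    have k3 : t 3 ∈ K := by
      have h2 : t 3 = (t 0 * t 1 * t 2)⁻¹ := by
        rw [eq_inv_iff_mul_eq_one]
        have h3 : t 0 * t 1 * t 2 = (t 3)⁻¹ := eq_inv_of_mul_eq_one_left hp
        rw [h3, mul_inv_cancel]
      rw [h2]
      exact K.inv_mem (K.mul_mem (K.mul_mem k0' k1') k2)
    have hK : K = ⊤ := by
      rw [eq_top_iff, ← hg, Subgroup.closure_le]
      rintro g ⟨i, rfl⟩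
      fin_cases i
      · exact k0'
      · exact k1'
      · exact k2
      · exact k3
    funext x
    have hx : x ∈ K := by
      rw [hK]
      exact Subgroup.mem_top x
    have h2 := ((show Inv2 f r x from hx) 1).1 ⟨hf1, by rw [one_mul]; exact hf2⟩
    rw [one_mul] at h2
    exact h2.1
  let Φ : R →ₗ[ℂ] ℂ × ℂ :=
    { toFun := fun f => ((f : G → ℂ) 1, (f : G → ℂ) r)
      map_add' := fun f g => rfl
      map_smul' := fun c f => rfl }
  have hΦ : Function.Injective Φ := by
    rw [injective_iff_map_eq_zero]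
    intro f hf
    have h2 : (f : G → ℂ) 1 = 0 := congrArg Prod.fst hf
    have h3 : (f : G → ℂ) r = 0 := congrArg Prod.snd hf
    exact Subtype.ext (hinj f f.2 h2 h3)
  have h2 := LinearMap.finrank_le_finrank_of_injective hΦ
  rw [Module.finrank_prod, Module.finrank_self] at h2
  exact h2

/-- equality in `St_four` -/
theorem Adj_four {c : G} {f : G → ℂ} (h : 4 * St_N f ≤ St_N (St_d c f)) (x : G) :
    f (x * c) = -f x := by
  have h1 := St_par c f
  have h2 := St_N_nonneg (fun x => f x + f (x * c))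
  have h3 : St_N (fun x => f x + f (x * c)) = 0 := by linarith
  have h4 := congrFun (St_N_zero h3) x
  have h5 : f x + f (x * c) = 0 := h4
  linear_combination h5

/-- equality in `St_three_le` -/
theorem Adj_three {c : G} (hc : c * c * c = 1) {f : G → ℂ} (h : 3 * St_N f ≤ St_N (St_d c f))
    (x : G) : f x + f (x * c) + f (x * c * c) = 0 := by
  have h1 := St_three c hc f
  have h2 := St_N_nonneg (fun x => f x + f (x * c) + f (x * c * c))
  have h3 : St_N (fun x => f x + f (x * c) + f (x * c * c)) = 0 := by linarith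
  exact congrFun (St_N_zero h3) x

/-- equality in the norm bound of `star2` -/
theorem Adj_eq {b p q : G} {f : G → ℂ} {C : ℝ}
    (hst : ∑ x, ‖star2 b p q f x‖ ^ 2 = C * (orderOf b : ℝ) ^ 2 * ∑ x, ‖f x‖ ^ 2)
    (hC : St_N (St_d p (St_d q f)) ≤ C * St_N f) :
    St_N (St_d p (St_d q f)) = C * St_N f ∧
      ∀ x, ∀ k ∈ Subgroup.zpowers b, St_d p (St_d q f) (x * k) = St_d p (St_d q f) x := by
  have hord : (orderOf b : ℝ) = Nat.card (Subgroup.zpowers b) := by rw [Nat.card_zpowers]
  have hB : (0 : ℝ) < (Nat.card (Subgroup.zpowers b) : ℝ) ^ 2 := by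
    have : (0 : ℝ) < Nat.card (Subgroup.zpowers b) := by exact_mod_cast Nat.card_pos
    positivity
  have h1 : St_N (sm (Subgroup.zpowers b) (St_d p (St_d q f))) =
      C * (Nat.card (Subgroup.zpowers b) : ℝ) ^ 2 * St_N f := by
    have h2 : star2 b p q f = sm (Subgroup.zpowers b) (St_d p (St_d q f)) := St_star _ _ _ _
    rw [← h2, ← hord]
    exact hst
  have h2 := St_sm_le (Subgroup.zpowers b) (St_d p (St_d q f))
  have h3 : St_N (St_d p (St_d q f)) = C * St_N f := by
    refine le_antisymm hC ?_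
    rw [h1] at h2
    have h4 : (Nat.card (Subgroup.zpowers b) : ℝ) ^ 2 * (C * St_N f) ≤
        (Nat.card (Subgroup.zpowers b) : ℝ) ^ 2 * St_N (St_d p (St_d q f)) := by linarith
    exact le_of_mul_le_mul_left h4 hB
  refine ⟨h3, ?_⟩
  refine St_sm_eq _ _ ?_
  rw [h1, h3]
  ring

/-- the finer information of `St_bound` -/
theorem Adj_bound {a p q : G} (hpq : p * q = a) (h0 : p ≠ 1) (h1 : q ≠ 1)
    (m0 : p ∈ Subgroup.zpowers a) :
    (orderOf a = 3 → p = q) ∧
    (orderOf a = 4 → (p * p = 1 ∧ q * q = p) ∨ (q * q = 1 ∧ p * p = q)) ∧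
    (orderOf a = 6 → p * p * p = 1 ∨ q * q * q = 1) := by
  obtain ⟨k, hk, hpk, hqk⟩ := St_cyc hpq m0
  have hq : q = a * (a ^ k)⁻¹ := eq_mul_inv_of_mul_eq hqk
  refine ⟨fun he => ?_, fun he => ?_, fun he => ?_⟩
  · have ha : a ^ 3 = 1 := by rw [← he]; exact pow_orderOf_eq_one a
    rw [he] at hk
    have h2 : k = 2 := by
      interval_cases k
      · exact absurd (by rw [hpk, pow_zero]) h0
      · exact absurd (by rw [hq, pow_one, mul_inv_cancel]) h1
      · rfl
    subst h2
    rw [hpk, hq, eq_comm, mul_inv_eq_iff_eq_mul, ← pow_add, show 2 + 2 = 3 + 1 from rfl, pow_succ,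
      ha, one_mul]
  · have ha : a ^ 4 = 1 := by rw [← he]; exact pow_orderOf_eq_one a
    rw [he] at hk
    have h2 : k = 2 ∨ k = 3 := by
      interval_cases k
      · exact absurd (by rw [hpk, pow_zero]) h0
      · exact absurd (by rw [hq, pow_one, mul_inv_cancel]) h1
      · exact Or.inl rfl
      · exact Or.inr rfl
    rcases h2 with rfl | rfl
    · left
      have h3 : q = a ^ 3 := by
        rw [hq, mul_inv_eq_iff_eq_mul, ← pow_add, show 3 + 2 = 4 + 1 from rfl, pow_succ, ha, one_mul]
      refine ⟨?_, ?_⟩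
      · rw [hpk, ← pow_add]; exact ha
      · rw [h3, hpk, ← pow_add, show 3 + 3 = 4 + 2 from rfl, pow_add, ha, one_mul]
    · right
      have h3 : q = a ^ 2 := by
        rw [hq, mul_inv_eq_iff_eq_mul, ← pow_add, show 2 + 3 = 4 + 1 from rfl, pow_succ, ha, one_mul]
      refine ⟨?_, ?_⟩
      · rw [h3, ← pow_add]; exact ha
      · rw [h3, hpk, ← pow_add, show 3 + 3 = 4 + 2 from rfl, pow_add, ha, one_mul]
  · have ha : a ^ 6 = 1 := by rw [← he]; exact pow_orderOf_eq_one a
    rw [he] at hk
    have hcub : ∀ j : ℕ, a ^ j * a ^ j * a ^ j = a ^ (3 * j) := by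
      intro j
      rw [← pow_add, ← pow_add]
      congr 1
      ring
    interval_cases k
    · exact absurd (by rw [hpk, pow_zero]) h0
    · exact absurd (by rw [hq, pow_one, mul_inv_cancel]) h1
    · left
      rw [hpk, hcub]
      exact ha
    · right
      have h3 : q = a ^ 4 := by
        rw [hq, mul_inv_eq_iff_eq_mul, ← pow_add, show 4 + 3 = 6 + 1 from rfl, pow_succ, ha,
          one_mul]
      rw [h3, hcub, show 3 * 4 = 6 * 2 from rfl, pow_mul, ha, one_pow]
    · left
      rw [hpk, hcub, show 3 * 4 = 6 * 2 from rfl, pow_mul, ha, one_pow]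
    · right
      have h3 : q = a ^ 2 := by
        rw [hq, mul_inv_eq_iff_eq_mul, ← pow_add, show 2 + 5 = 6 + 1 from rfl, pow_succ, ha,
          one_mul]
      rw [h3, hcub]
      exact ha

/-- three generators which commute -/
theorem Adj_ab (t : Fin 4 → G) (hp : t 0 * t 1 * t 2 * t 3 = 1)
    (hg : Subgroup.closure (Set.range t) = ⊤) (h01 : Commute (t 0) (t 1))
    (h12 : Commute (t 1) (t 2)) (h02 : Commute (t 0) (t 2)) (x y : G) : x * y = y * x := by
  have h3 : t 3 = (t 0 * t 1 * t 2)⁻¹ := by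
    rw [eq_inv_iff_mul_eq_one]
    have h3 : t 0 * t 1 * t 2 = (t 3)⁻¹ := eq_inv_of_mul_eq_one_left hp
    rw [h3, mul_inv_cancel]
  have c03 : Commute (t 0) (t 3) := by
    rw [h3]
    exact (((Commute.refl _).mul_right h01).mul_right h02).inv_right
  have c13 : Commute (t 1) (t 3) := by
    rw [h3]
    exact ((h01.symm.mul_right (Commute.refl _)).mul_right h12).inv_right
  have c23 : Commute (t 2) (t 3) := by
    rw [h3]
    exact ((h02.symm.mul_right h12.symm).mul_right (Commute.refl _)).inv_right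
  have hgen : ∀ i j, Commute (t i) (t j) := by
    intro i j
    fin_cases i <;> fin_cases j
    · exact Commute.refl _
    · exact h01
    · exact h02
    · exact c03
    · exact h01.symm
    · exact Commute.refl _
    · exact h12
    · exact c13
    · exact h02.symm
    · exact h12.symm
    · exact Commute.refl _
    · exact c23
    · exact c03.symm
    · exact c13.symm
    · exact c23.symm
    · exact Commute.refl _
  have h4 : ∀ z : G, ∀ i, z * t i = t i * z := by
    intro z i
    have hz : z ∈ Subgroup.closure (Set.range t) := by rw [hg]; exact Subgroup.mem_top z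
    have h5 : Subgroup.closure (Set.range t) ≤ Subgroup.centralizer {t i} := by
      rw [Subgroup.closure_le]
      rintro g ⟨j, rfl⟩
      show t j ∈ Subgroup.centralizer {t i}
      rw [Subgroup.mem_centralizer_singleton_iff]
      exact (hgen j i).eq
    have h6 := h5 hz
    rw [Subgroup.mem_centralizer_singleton_iff] at h6
    exact h6
  have hy : y ∈ Subgroup.closure (Set.range t) := by rw [hg]; exact Subgroup.mem_top y
  have h5 : Subgroup.closure (Set.range t) ≤ Subgroup.centralizer {x} := by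
    rw [Subgroup.closure_le]
    rintro g ⟨j, rfl⟩
    show t j ∈ Subgroup.centralizer {x}
    rw [Subgroup.mem_centralizer_singleton_iff]
    exact (h4 x j).symm
  have h6 := h5 hy
  rw [Subgroup.mem_centralizer_singleton_iff] at h6
  exact h6.symm

theorem adj_main (t : Fin 4 → G) (hp : t 0 * t 1 * t 2 * t 3 = 1) (hg : Subgroup.closure (Set.range t) = ⊤)
    (hnc : ∃ x y : G, x * y ≠ y * x) (h1 : ∀ i, t i ≠ 1)
    (m0 : t 0 ∈ Subgroup.zpowers (t 0 * t 1)) (m1 : t 1 ∈ Subgroup.zpowers (t 0 * t 1))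
    (m1' : t 1 ∈ Subgroup.zpowers (t 1 * t 2)) (m2 : t 2 ∈ Subgroup.zpowers (t 1 * t 2))
    (ea : orderOf (t 0 * t 1) = 3 ∨ orderOf (t 0 * t 1) = 4 ∨ orderOf (t 0 * t 1) = 6)
    (eb : orderOf (t 1 * t 2) = 3 ∨ orderOf (t 1 * t 2) = 4 ∨ orderOf (t 1 * t 2) = 6)
    (ζ : ℝ) (hζ : ζ = 2 * Real.cos (Real.pi / orderOf (t 0 * t 1)) + 2 * Real.cos (Real.pi / orderOf (t 1 * t 2)))
    (hR : HR (ro (hs t)) ≠ ⊥)
    (st1 : ∀ f ∈ HR (ro (hs t)), ∑ x, ‖star2 (t 0 * t 2) (t 1) (t 0) f x‖ ^ 2 =
      ζ ^ 2 * (orderOf (t 0 * t 2) : ℝ) ^ 2 * ∑ x, ‖f x‖ ^ 2)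
    (st2 : ∀ f ∈ HR (ro (hs t)), ∑ x, ‖star2 (t 1 * t 3) (t 2) (t 1) f x‖ ^ 2 =
      ζ ^ 2 * (orderOf (t 1 * t 3) : ℝ) ^ 2 * ∑ x, ‖f x‖ ^ 2) :
    finrank ℂ (HR (ro (hs t))) ≤ 2 := by
  classical
  have h01 : t 0 * t 1 = t 1 * t 0 := St_comm m0 m1
  have h12 : t 1 * t 2 = t 2 * t 1 := St_comm m1' m2
  -- `f (x c) = f x`, `c = t 0 * t 2`
  have hc : ∀ f ∈ HR (ro (hs t)), ∀ x, f (x * (t 0 * t 2)) = f x := fun f hf => hf.1
  obtain ⟨f0, hf0, hf0'⟩ := (Submodule.ne_bot_iff _).1 hR
  have hN0 : 0 < St_N f0 := lt_of_le_of_ne (St_N_nonneg f0) fun h => hf0' (St_N_zero h.symm)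
  -- `t 1` commutes with `c`
  have hcc : t 0 * t 2 * t 1 = t 1 * (t 0 * t 2) := by
    rw [mul_assoc, ← h12, ← mul_assoc, h01, mul_assoc]
  obtain ⟨a3, a4, a6⟩ := Adj_bound (a := t 0 * t 1) rfl (h1 0) (h1 1) m0
  obtain ⟨b3, b4, b6⟩ := Adj_bound (a := t 1 * t 2) rfl (h1 1) (h1 2) m1'
  have hab : ∀ h02 : Commute (t 0) (t 2), False := by
    intro h02
    obtain ⟨x, y, hxy⟩ := hnc
    exact hxy (Adj_ab t hp hg h01 h12 h02 x y)
  -- the bounds
  have s2 : (√2 : ℝ) ^ 2 = 2 := Real.sq_sqrt (by norm_num)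
  have s3 : (√3 : ℝ) ^ 2 = 3 := Real.sq_sqrt (by norm_num)
  have s2p : (0 : ℝ) < √2 := Real.sqrt_pos.2 (by norm_num)
  have s3p : (0 : ℝ) < √3 := Real.sqrt_pos.2 (by norm_num)
  have s6 : (3 : ℝ) / 2 < √2 * √3 := by
    have h2 : (√2 * √3 : ℝ) ^ 2 = 6 := by rw [mul_pow, s2, s3]; norm_num
    nlinarith [mul_pos s2p s3p]
  rcases ea with ea | ea | ea
  · -- `e_a = 3`
    exact (hab (by
      rw [a3 ea]
      exact h12)).elim
  · -- `e_a = 4`
    have hB : ∀ f : G → ℂ, St_N (St_d (t 1) (St_d (t 0) f)) ≤ 8 * St_N f := fun f => by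
      rw [St_dd h01.symm]
      exact (St_bound (a := t 0 * t 1) rfl (h1 0) (h1 1) m0 m1).2.1 ea f
    rcases eb with eb | eb | eb
    · exact (hab (by
        rw [← b3 eb]
        exact h01)).elim
    · have hζ8 : ζ ^ 2 = 8 := by
        rw [hζ, ea, eb]
        push_cast
        rw [Real.cos_pi_div_four]
        nlinarith
      rw [hζ8] at st1
      rcases a4 ea with ⟨hd, hcd⟩ | ⟨hd, hcd⟩
      · -- `t 0 ^ 2 = 1`, `t 1 ^ 2 = t 0`
        refine Adj_dim t hp hg (t 1) _ fun f hf => ?_
        obtain ⟨e1, e2⟩ := Adj_eq (st1 f hf) (hB f)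
        have hv : ∀ x, St_d (t 0) f (x * t 1 * t 1) = -St_d (t 0) f x := by
          intro x
          unfold St_d
          rw [mul_assoc x, hcd, mul_assoc x (t 0) (t 0), hd, mul_one]
          ring
        have e3 := St_two (t 1) (St_d (t 0) f) hv
        have hf0 : ∀ x, f (x * t 0) = -f x := Adj_four (by linarith)
        have hf1 : ∀ x, f (x * t 1 * t 1) = -f x := by
          intro x
          rw [mul_assoc, hcd]
          exact hf0 x
        refine ⟨fun x => ?_, fun x => ?_, fun x => ?_⟩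
        · rw [mul_assoc x, h01, ← mul_assoc, hf0, hf0, neg_eq_zero, neg_eq_zero]
        · rw [hf1, neg_eq_zero]
          exact and_comm
        · rw [mul_assoc x (t 0 * t 2) (t 1), hcc, ← mul_assoc x (t 1) (t 0 * t 2), hc f hf, hc f hf]
      · -- `t 1 ^ 2 = 1`, `t 0 ^ 2 = t 1`
        refine Adj_dim t hp hg (t 0) _ fun f hf => ?_
        obtain ⟨e1, e2⟩ := Adj_eq (st1 f hf) (hB f)
        have e1' : St_N (St_d (t 0) (St_d (t 1) f)) = 8 * St_N f := by
          rw [← e1, St_dd h01]
        have hv : ∀ x, St_d (t 1) f (x * t 0 * t 0) = -St_d (t 1) f x := by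
          intro x
          unfold St_d
          rw [mul_assoc x, hcd, mul_assoc x (t 1) (t 1), hd, mul_one]
          ring
        have e3 := St_two (t 0) (St_d (t 1) f) hv
        have hf1 : ∀ x, f (x * t 1) = -f x := Adj_four (by linarith)
        have hf0 : ∀ x, f (x * t 0 * t 0) = -f x := by
          intro x
          rw [mul_assoc, hcd]
          exact hf1 x
        have hu : ∀ x, St_d (t 1) (St_d (t 0) f) x = 2 * f x - 2 * f (x * t 0) := by
          intro x
          unfold St_d
          rw [hf1, mul_assoc x, ← h01, ← mul_assoc, hf1]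
          ring
        have hct : ∀ x, f (x * (t 0 * t 2) * t 0) = f (x * t 0) := by
          intro x
          have h2 := e2 x _ (Subgroup.mem_zpowers _)
          rw [hu, hu, hc f hf] at h2
          linear_combination (-1 / 2) * h2
        refine ⟨fun x => ?_, fun x => ?_, fun x => ?_⟩
        · rw [hf0, neg_eq_zero]
          exact and_comm
        · rw [mul_assoc x, ← h01, ← mul_assoc, hf1, hf1, neg_eq_zero, neg_eq_zero]
        · rw [hct, hc f hf]
    · exfalso
      have hζ8 : 8 < ζ ^ 2 := by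
        rw [hζ, ea, eb]
        push_cast
        rw [Real.cos_pi_div_four, Real.cos_pi_div_six]
        nlinarith
      have h2 := Adj_eq (C := ζ ^ 2) (st1 f0 hf0) (by nlinarith [hB f0])
      nlinarith [hB f0, h2.1]
  · -- `e_a = 6`
    rcases eb with eb | eb | eb
    · exact (hab (by
        rw [← b3 eb]
        exact h01)).elim
    · exfalso
      have hζ8 : 8 < ζ ^ 2 := by
        rw [hζ, ea, eb]
        push_cast
        rw [Real.cos_pi_div_four, Real.cos_pi_div_six]
        nlinarith
      have hB : ∀ f : G → ℂ, St_N (St_d (t 2) (St_d (t 1) f)) ≤ 8 * St_N f := fun f => by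
        rw [St_dd h12.symm]
        exact (St_bound (a := t 1 * t 2) rfl (h1 1) (h1 2) m1' m2).2.1 eb f
      have h2 := Adj_eq (C := ζ ^ 2) (st2 f0 hf0) (by nlinarith [hB f0])
      nlinarith [hB f0, h2.1]
    · have hζ12 : ζ ^ 2 = 12 := by
        rw [hζ, ea, eb]
        push_cast
        rw [Real.cos_pi_div_six]
        nlinarith
      rw [hζ12] at st1
      have hB : ∀ f : G → ℂ, St_N (St_d (t 1) (St_d (t 0) f)) ≤ 12 * St_N f := fun f => by
        rw [St_dd h01.symm]
        exact (St_bound (a := t 0 * t 1) rfl (h1 0) (h1 1) m0 m1).2.2 ea f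
      rcases a6 ea with h3 | h3
      · -- `t 0 ^ 3 = 1`
        refine Adj_dim t hp hg (t 0) _ fun f hf => ?_
        obtain ⟨e1, e2⟩ := Adj_eq (st1 f hf) (hB f)
        have e1' : St_N (St_d (t 0) (St_d (t 1) f)) = 12 * St_N f := by
          rw [← e1, St_dd h01]
        have k1 := St_three_le (t 0) h3 (St_d (t 1) f)
        have k2 := St_four (t 1) f
        have hf1 : ∀ x, f (x * t 1) = -f x := Adj_four (by linarith)
        have hv : ∀ x, St_d (t 1) f x + St_d (t 1) f (x * t 0) + St_d (t 1) f (x * t 0 * t 0) = 0 :=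
          Adj_three h3 (by linarith)
        have hv' : ∀ x, St_d (t 1) f x = 2 * f x := by
          intro x
          unfold St_d
          rw [hf1]
          ring
        have hf0 : ∀ x, f x + f (x * t 0) + f (x * t 0 * t 0) = 0 := by
          intro x
          have h4 := hv x
          rw [hv', hv', hv'] at h4
          linear_combination (1 / 2) * h4
        have hu : ∀ x, St_d (t 1) (St_d (t 0) f) x = 2 * f x - 2 * f (x * t 0) := by
          intro x
          unfold St_d
          rw [hf1, mul_assoc x, ← h01, ← mul_assoc, hf1]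
          ring
        have hct : ∀ x, f (x * (t 0 * t 2) * t 0) = f (x * t 0) := by
          intro x
          have h2 := e2 x _ (Subgroup.mem_zpowers _)
          rw [hu, hu, hc f hf] at h2
          linear_combination (-1 / 2) * h2
        refine ⟨fun x => ?_, fun x => ?_, fun x => ?_⟩
        · have h4 := hf0 x
          constructor
          · rintro ⟨c1, c2⟩
            rw [c1, c2, zero_add, zero_add] at h4
            exact ⟨c2, h4⟩
          · rintro ⟨c1, c2⟩
            rw [c1, c2, add_zero, add_zero] at h4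
            exact ⟨h4, c1⟩
        · rw [mul_assoc x, ← h01, ← mul_assoc, hf1, hf1, neg_eq_zero, neg_eq_zero]
        · rw [hct, hc f hf]
      · -- `t 1 ^ 3 = 1`
        refine Adj_dim t hp hg (t 1) _ fun f hf => ?_
        obtain ⟨e1, e2⟩ := Adj_eq (st1 f hf) (hB f)
        have k1 := St_three_le (t 1) h3 (St_d (t 0) f)
        have k2 := St_four (t 0) f
        have hf0 : ∀ x, f (x * t 0) = -f x := Adj_four (by linarith)
        have hv : ∀ x, St_d (t 0) f x + St_d (t 0) f (x * t 1) + St_d (t 0) f (x * t 1 * t 1) = 0 :=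
          Adj_three h3 (by linarith)
        have hv' : ∀ x, St_d (t 0) f x = 2 * f x := by
          intro x
          unfold St_d
          rw [hf0]
          ring
        have hf1 : ∀ x, f x + f (x * t 1) + f (x * t 1 * t 1) = 0 := by
          intro x
          have h4 := hv x
          rw [hv', hv', hv'] at h4
          linear_combination (1 / 2) * h4
        refine ⟨fun x => ?_, fun x => ?_, fun x => ?_⟩
        · rw [mul_assoc x, h01, ← mul_assoc, hf0, hf0, neg_eq_zero, neg_eq_zero]
        · have h4 := hf1 x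
          constructor
          · rintro ⟨c1, c2⟩
            rw [c1, c2, zero_add, zero_add] at h4
            exact ⟨c2, h4⟩
          · rintro ⟨c1, c2⟩
            rw [c1, c2, add_zero, add_zero] at h4
            exact ⟨h4, c1⟩
        · rw [mul_assoc x (t 0 * t 2) (t 1), hcc, ← mul_assoc x (t 1) (t 0 * t 2), hc f hf, hc f hf]

end Pool.Agent.H78.UN
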