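import Mathlib

set_option autoImplicit false

/-!
PROJECT UN (MP_bf82d2_ag, uniformisation), module Ari (helper19): arithmetic.
-/

namespace Pool.Agent.H78.UN

open Finset

/-- `x y z ≤ 2 min (x y, y z, z x)`, so `(3 / 2) x y z ≤ x y + y z + z x ≤ x² + y² + z²`. -/
theorem tri (x y z : ℝ) (hx : 0 < x) (hy : 0 < y) (hz : 0 < z) (hx2 : x ≤ 2) (hy2 : y ≤ 2) (hz2 : z ≤ 2) :
    3 / 2 ≤ z / (x * y) + x / (y * z) + y / (z * x) ∧
      (z / (x * y) + x / (y * z) + y / (z * x) = 3 / 2 → x = 2 ∧ y = 2 ∧ z = 2) := by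
  have hxy : 0 < x * y := mul_pos hx hy
  have hyz : 0 < y * z := mul_pos hy hz
  have hzx : 0 < z * x := mul_pos hz hx
  have hxyz : 0 < x * y * z := mul_pos hxy hz
  have e : z / (x * y) + x / (y * z) + y / (z * x) = (x ^ 2 + y ^ 2 + z ^ 2) / (x * y * z) := by
    field_simp
    ring
  have a1 : 0 ≤ x * y * (2 - z) := mul_nonneg hxy.le (by linarith)
  have a2 : 0 ≤ y * z * (2 - x) := mul_nonneg hyz.le (by linarith)
  have a3 : 0 ≤ z * x * (2 - y) := mul_nonneg hzx.le (by linarith)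
  have s1 := sq_nonneg (x - y)
  have s2 := sq_nonneg (y - z)
  have s3 := sq_nonneg (z - x)
  rw [e]
  constructor
  · rw [le_div_iff₀ hxyz]
    nlinarith
  · intro h
    rw [div_eq_iff hxyz.ne'] at h
    have b1 : x * y * (2 - z) = 0 := by nlinarith
    have b2 : y * z * (2 - x) = 0 := by nlinarith
    have b3 : z * x * (2 - y) = 0 := by nlinarith
    refine ⟨?_, ?_, ?_⟩
    · rcases mul_eq_zero.1 b2 with h' | h'
      · exact absurd h' hyz.ne'
      · linarith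
    · rcases mul_eq_zero.1 b3 with h' | h'
      · exact absurd h' hzx.ne'
      · linarith
    · rcases mul_eq_zero.1 b1 with h' | h'
      · exact absurd h' hxy.ne'
      · linarith

/-- `z z' ≥ 2 (1 + cos (π / e)) x y`, `z + z' ≥ 2 z z' / Z` for `z, z' ≤ Z`. -/
theorem star_ari (e : ℕ) (he : e = 3 ∨ e = 4 ∨ e = 6) (x y z z' : ℝ) (hx : 0 < x) (hy : 0 < y) (hz : 0 < z)
    (hz' : 0 < z') (h3 : e = 3 → z ≤ 3 ∧ z' ≤ 3) (h4 : e = 4 → z ^ 2 ≤ 8 ∧ z' ^ 2 ≤ 8)
    (h6 : e = 6 → z ^ 2 ≤ 12 ∧ z' ^ 2 ≤ 12)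
    (h : z * z' = x ^ 2 + y ^ 2 + 2 * x * y * Real.cos (Real.pi / e)) :
    2 ≤ z / (x * y) + z' / (x * y) ∧ (z / (x * y) + z' / (x * y) = 2 → e = 3 ∧ z = 3 ∧ z' = 3) := by
  have hxy : 0 < x * y := mul_pos hx hy
  have hzz : 0 < z * z' := mul_pos hz hz'
  have s := sq_nonneg (x - y)
  rw [← add_div]
  rcases he with rfl | rfl | rfl
  · obtain ⟨c1, c2⟩ := h3 rfl
    have hc : Real.cos (Real.pi / (3 : ℕ)) = 1 / 2 := by
      push_cast
      exact Real.cos_pi_div_three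
    rw [hc] at h
    have d1 : 0 ≤ z * (3 - z') := mul_nonneg hz.le (by linarith)
    have d2 : 0 ≤ z' * (3 - z) := mul_nonneg hz'.le (by linarith)
    constructor
    · rw [le_div_iff₀ hxy]
      nlinarith
    · intro hh
      rw [div_eq_iff hxy.ne'] at hh
      have b1 : z * (3 - z') = 0 := by nlinarith
      have b2 : z' * (3 - z) = 0 := by nlinarith
      refine ⟨rfl, ?_, ?_⟩
      · rcases mul_eq_zero.1 b2 with h' | h'
        · exact absurd h' hz'.ne'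
        · linarith
      · rcases mul_eq_zero.1 b1 with h' | h'
        · exact absurd h' hz.ne'
        · linarith
  · obtain ⟨c1, c2⟩ := h4 rfl
    have hc : Real.cos (Real.pi / (4 : ℕ)) = √2 / 2 := by
      push_cast
      exact Real.cos_pi_div_four
    rw [hc] at h
    -- `z, z' ≤ 3` is enough: `4 (1 + √2 / 2) / 3 > 2`
    have q : (14 : ℝ) / 10 ≤ √2 := Real.le_sqrt_of_sq_le (by norm_num)
    have c1' : z ≤ 3 := by nlinarith
    have c2' : z' ≤ 3 := by nlinarith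
    have d1 : 0 ≤ z * (3 - z') := mul_nonneg hz.le (by linarith)
    have d2 : 0 ≤ z' * (3 - z) := mul_nonneg hz'.le (by linarith)
    have m : x * y * (14 / 10) ≤ x * y * √2 := mul_le_mul_of_nonneg_left q hxy.le
    have k : 2 * (x * y) < z + z' := by nlinarith
    constructor
    · rw [le_div_iff₀ hxy]
      exact k.le
    · intro hh
      rw [div_eq_iff hxy.ne'] at hh
      exact absurd hh k.ne'
  · obtain ⟨c1, c2⟩ := h6 rfl
    have hc : Real.cos (Real.pi / (6 : ℕ)) = √3 / 2 := by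
      push_cast
      exact Real.cos_pi_div_six
    rw [hc] at h
    -- `z, z' ≤ 7 / 2` is enough: `4 (1 + √3 / 2) / (7 / 2) > 2`
    have q : (17 : ℝ) / 10 ≤ √3 := Real.le_sqrt_of_sq_le (by norm_num)
    have c1' : z ≤ 7 / 2 := by nlinarith
    have c2' : z' ≤ 7 / 2 := by nlinarith
    have d1 : 0 ≤ z * (7 / 2 - z') := mul_nonneg hz.le (by linarith)
    have d2 : 0 ≤ z' * (7 / 2 - z) := mul_nonneg hz'.le (by linarith)
    have m : x * y * (17 / 10) ≤ x * y * √3 := mul_le_mul_of_nonneg_left q hxy.le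
    have k : 2 * (x * y) < z + z' := by nlinarith
    constructor
    · rw [le_div_iff₀ hxy]
      exact k.le
    · intro hh
      rw [div_eq_iff hxy.ne'] at hh
      exact absurd hh k.ne'

theorem inv_sq_le (k m : ℕ) (hk : 0 < k) (h : k ≤ m) : 1 / (m : ℝ) ^ 2 ≤ 1 / (k : ℝ) ^ 2 := by
  have hk' : (0 : ℝ) < k := by exact_mod_cast hk
  have h' : (k : ℝ) ≤ m := by exact_mod_cast h
  exact one_div_le_one_div_of_le (by positivity) (pow_le_pow_left₀ hk'.le h' 2)

theorem noether1 (n : ℕ) (m : Fin 4 → ℕ) (hm : ∀ i, 2 ≤ m i) (hm2 : ∃ i, m i ≠ 2)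
    (h : (n : ℝ) * (1 - ∑ i, 1 / (m i : ℝ) ^ 2) < 6) : n ≤ 43 := by
  obtain ⟨i, hi⟩ := hm2
  have h3 : 3 ≤ m i := by
    have := hm i
    omega
  have b : ∀ j, 1 / (m j : ℝ) ^ 2 ≤ 1 / 4 := fun j => by
    have := inv_sq_le 2 (m j) (by norm_num) (hm j)
    norm_num at this ⊢
    exact this
  have b3 : 1 / (m i : ℝ) ^ 2 ≤ 1 / 9 := by
    have := inv_sq_le 3 (m i) (by norm_num) h3
    norm_num at this ⊢
    exact this
  have hs : ∑ j, 1 / (m j : ℝ) ^ 2 ≤ 31 / 36 := by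
    rw [← add_sum_erase univ _ (mem_univ i)]
    have : ∑ j ∈ univ.erase i, 1 / (m j : ℝ) ^ 2 ≤ ∑ j ∈ univ.erase i, (1 / 4 : ℝ) :=
      sum_le_sum fun j _ => b j
    rw [sum_const, card_erase_of_mem (mem_univ i), card_univ, Fintype.card_fin] at this
    norm_num at this b3 ⊢
    linarith
  by_contra hn
  have hn' : (44 : ℝ) ≤ n := by exact_mod_cast not_le.1 hn
  nlinarith

theorem noether2 (n : ℕ) (m : Fin 4 → ℕ) (hm : ∀ i, 2 ≤ m i) (h0 : m 0 = 3) (h1 : m 1 = 3)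
    (h : (n : ℝ) * (1 - ∑ i, 1 / (m i : ℝ) ^ 2) < 12) : n ≤ 43 := by
  have b : ∀ j, 1 / (m j : ℝ) ^ 2 ≤ 1 / 4 := fun j => by
    have := inv_sq_le 2 (m j) (by norm_num) (hm j)
    norm_num at this ⊢
    exact this
  have hs : ∑ j, 1 / (m j : ℝ) ^ 2 ≤ 13 / 18 := by
    rw [Fin.sum_univ_four, h0, h1]
    have b2 := b 2
    have b3 := b 3
    push_cast
    linarith
  by_contra hn
  have hn' : (44 : ℝ) ≤ n := by exact_mod_cast not_le.1 hn
  nlinarith

end Pool.Agent.H78.UN
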