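import Pool.Agent.H78.UN.Ari

set_option autoImplicit false

/-!
PROJECT UN (MP_bf82d2_ag, uniformisation), module Ari2 (helper19): arithmetic.
-/

namespace Pool.Agent.H78.UN

open Finset

theorem noether_sum (m : Fin 4 → ℕ) (hm : ∀ i, 2 ≤ m i) (hm2 : ∃ i, m i ≠ 2) :
    ∑ i, 1 / (m i : ℝ) ^ 2 ≤ 31 / 36 := by
  obtain ⟨i, hi⟩ := hm2
  have h3 : 3 ≤ m i := by
    have := hm i
    omega
  have b : ∀ j, 1 / (m j : ℝ) ^ 2 ≤ 1 / 4 := fun j => by
    have := inv_sq_le 2 (m j) (by norm_num) (hm j)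
    norm_num at this ⊢
    exact this
  have b3 : 1 / (m i : ℝ) ^ 2 ≤ 1 / 9 := by
    have := inv_sq_le 3 (m i) (by norm_num) h3
    norm_num at this ⊢
    exact this
  rw [← add_sum_erase univ _ (mem_univ i)]
  have : ∑ j ∈ univ.erase i, 1 / (m j : ℝ) ^ 2 ≤ ∑ j ∈ univ.erase i, (1 / 4 : ℝ) :=
    sum_le_sum fun j _ => b j
  rw [sum_const, card_erase_of_mem (mem_univ i), card_univ, Fintype.card_fin] at this
  norm_num at this b3 ⊢
  linarith

theorem noether3 (n : ℕ) (m : Fin 4 → ℕ) (hm : ∀ i, 2 ≤ m i) (hm2 : ∃ i, m i ≠ 2)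
    (h : (n : ℝ) * (1 - ∑ i, 1 / (m i : ℝ) ^ 2) < 12) : n ≤ 86 := by
  have hs := noether_sum m hm hm2
  by_contra hn
  have hn' : (87 : ℝ) ≤ n := by exact_mod_cast not_le.1 hn
  nlinarith

end Pool.Agent.H78.UN
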