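import Mathlib
import Pool.Agent.H78.UN.Ari

set_option autoImplicit false

/-!
PROJECT UN (MP_bf82d2_ag, uniformisation), module Cmb: the sum over the orbit.
-/

namespace Pool.Agent.H78.UN

open Finset

theorem sum_shift {X : Type} [DecidableEq X] (S : Finset X) (w : X → X) (hw : Function.Injective w)
    (hS : ∀ t ∈ S, w t ∈ S) (φ : X → ℝ) : ∑ t ∈ S, φ (w t) = ∑ t ∈ S, φ t := by
  have h1 : S.image w = S := by
    refine eq_of_subset_of_card_le ?_ ?_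
    · intro y hy
      obtain ⟨x, hx, rfl⟩ := mem_image.1 hy
      exact hS x hx
    · rw [card_image_of_injective _ hw]
  conv_rhs => rw [← h1]
  rw [sum_image fun x _ y _ h => hw h]

theorem cmb {X : Type} [DecidableEq X] (T F : Finset X) (hFT : F ⊆ T) (w h : X → X)
    (hw : Function.Injective w) (hh : Function.Injective h) (wT : ∀ t ∈ T, w t ∈ T) (hF : ∀ t ∈ F, h t ∈ F)
    (L z : X → ℝ) (L_pos : ∀ t ∈ T, 0 < L t)
    (w3L : ∀ t ∈ T, L (w (w (w t))) = L t) (w3F : ∀ t ∈ T, w (w (w t)) ∈ F ↔ t ∈ F)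
    (adj1 : ∀ t ∈ F, w t ∉ F) (adj2 : ∀ t ∈ F, w (w t) ∉ F)
    (hh2 : ∀ t ∈ F, L (w (w (h (h t)))) = L (w (w t)))
    (htri : ∀ t ∈ T, t ∉ F → w t ∉ F → w (w t) ∉ F → L t ≤ 2)
    (hstar : ∀ t ∈ F, 2 ≤ z t / (L (w (w t)) * L (w (w (h t)))) + z (h t) / (L (w (w t)) * L (w (w (h t)))))
    (horo : ∑ t ∈ T.filter (fun t => t ∉ F ∧ w t ∉ F ∧ w (w t) ∉ F), L (w (w t)) / (L t * L (w t)) +
      ∑ t ∈ F, z t / (L (w (w t)) * L (w (w (h t)))) = ((T \ F).card : ℝ) / 2) :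
    (∀ t ∈ T, t ∉ F → w t ∉ F → w (w t) ∉ F → L t = 2) ∧
    (∀ t ∈ F, z t / (L (w (w t)) * L (w (w (h t)))) + z (h t) / (L (w (w t)) * L (w (w (h t)))) = 2) := by
  set T0 := T.filter (fun t => t ∉ F ∧ w t ∉ F ∧ w (w t) ∉ F) with hT0
  have mT0 : ∀ t, t ∈ T0 ↔ t ∈ T ∧ t ∉ F ∧ w t ∉ F ∧ w (w t) ∉ F := fun t => by rw [hT0, mem_filter]
  have wT0 : ∀ t ∈ T0, w t ∈ T0 := by
    intro t ht
    rw [mT0] at ht ⊢
    exact ⟨wT t ht.1, ht.2.2.1, ht.2.2.2, fun h1 => ht.2.1 ((w3F t ht.1).1 h1)⟩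
  -- cardinalities
  have hcard : ((T \ F).card : ℝ) = T0.card + 2 * F.card := by
    have e1 : ((T \ F).card : ℝ) = T.card - F.card := by
      rw [card_sdiff_of_subset hFT, Nat.cast_sub (card_le_card hFT)]
    have e2 : (F.card : ℝ) = ∑ t ∈ T, if t ∈ F then (1 : ℝ) else 0 := by
      rw [sum_boole]
      congr 2
      ext t
      rw [mem_filter]
      exact ⟨fun h1 => ⟨hFT h1, h1⟩, fun h1 => h1.2⟩
    have e3 := sum_shift T w hw wT (fun t => if t ∈ F then (1 : ℝ) else 0)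
    have e4 := sum_shift T w hw wT (fun t => if w t ∈ F then (1 : ℝ) else 0)
    have e5 : (T0.card : ℝ) = ∑ t ∈ T, if (t ∉ F ∧ w t ∉ F ∧ w (w t) ∉ F) then (1 : ℝ) else 0 := by
      rw [sum_boole]
    have e6 : (T.card : ℝ) = ∑ t ∈ T, ((if (t ∉ F ∧ w t ∉ F ∧ w (w t) ∉ F) then (1 : ℝ) else 0) +
        (if t ∈ F then (1 : ℝ) else 0) + (if w t ∈ F then (1 : ℝ) else 0) + (if w (w t) ∈ F then (1 : ℝ) else 0)) := by
      rw [card_eq_sum_ones, Nat.cast_sum]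
      refine sum_congr rfl fun t ht => ?_
      by_cases c1 : t ∈ F
      · rw [if_neg (fun h1 => h1.1 c1), if_pos c1, if_neg (adj1 t c1), if_neg (adj2 t c1)]
        norm_num
      · by_cases c2 : w t ∈ F
        · rw [if_neg (fun h1 => h1.2.1 c2), if_neg c1, if_pos c2, if_neg (adj1 _ c2)]
          norm_num
        · by_cases c3 : w (w t) ∈ F
          · rw [if_neg (fun h1 => h1.2.2 c3), if_neg c1, if_neg c2, if_pos c3]
            norm_num
          · rw [if_pos ⟨c1, c2, c3⟩, if_neg c1, if_neg c2, if_neg c3]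
            norm_num
    rw [sum_add_distrib, sum_add_distrib, sum_add_distrib, ← e5, ← e2] at e6
    have e7 : ∑ t ∈ T, (if w t ∈ F then (1 : ℝ) else 0) = F.card := by rw [e3, ← e2]
    have e8 : ∑ t ∈ T, (if w (w t) ∈ F then (1 : ℝ) else 0) = F.card := by rw [e4, e7]
    rw [e7, e8] at e6
    rw [e1, e6]
    ring
  -- the triangles
  set hf : X → ℝ := fun t => L (w (w t)) / (L t * L (w t)) with hhf
  have s1 := sum_shift T0 w hw wT0 hf
  have s2 := sum_shift T0 w hw wT0 (fun t => hf (w t))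
  have hT : ∀ t ∈ T0, 3 / 2 ≤ hf t + hf (w t) + hf (w (w t)) ∧ (hf t + hf (w t) + hf (w (w t)) = 3 / 2 →
      L t = 2) := by
    intro t ht
    have a1 := (mT0 t).1 ht
    have a2 := (mT0 _).1 (wT0 t ht)
    have a3 := (mT0 _).1 (wT0 _ (wT0 t ht))
    have b1 := htri t a1.1 a1.2.1 a1.2.2.1 a1.2.2.2
    have b2 := htri _ a2.1 a2.2.1 a2.2.2.1 a2.2.2.2
    have b3 := htri _ a3.1 a3.2.1 a3.2.2.1 a3.2.2.2
    have c := tri (L t) (L (w t)) (L (w (w t))) (L_pos _ a1.1) (L_pos _ a2.1) (L_pos _ a3.1) b1 b2 b3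
    have d1 : hf t + hf (w t) + hf (w (w t)) = L (w (w t)) / (L t * L (w t)) + L t / (L (w t) * L (w (w t))) +
        L (w t) / (L (w (w t)) * L t) := by
      rw [hhf]
      simp only
      rw [w3L t a1.1, w3L (w t) a2.1]
    rw [d1]
    exact ⟨c.1, fun h1 => (c.2 h1).1⟩
  have hA : 3 * ∑ t ∈ T0, hf t = ∑ t ∈ T0, (hf t + hf (w t) + hf (w (w t))) := by
    rw [sum_add_distrib, sum_add_distrib, s2, s1]
    ring
  have hA1 : (3 / 2 : ℝ) * T0.card = ∑ _t ∈ T0, (3 / 2 : ℝ) := by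
    rw [sum_const, nsmul_eq_mul]
    ring
  have hA2 : ∑ _t ∈ T0, (3 / 2 : ℝ) ≤ ∑ t ∈ T0, (hf t + hf (w t) + hf (w (w t))) :=
    sum_le_sum fun t ht => (hT t ht).1
  -- the stars
  set gz : X → ℝ := fun t => z t / (L (w (w t)) * L (w (w (h t)))) with hgz
  have s3 := sum_shift F h hh hF gz
  have hB : 2 * ∑ t ∈ F, gz t = ∑ t ∈ F, (z t / (L (w (w t)) * L (w (w (h t)))) +
      z (h t) / (L (w (w t)) * L (w (w (h t))))) := by
    have e1 : ∑ t ∈ F, gz (h t) = ∑ t ∈ F, z (h t) / (L (w (w t)) * L (w (w (h t)))) := by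
      refine sum_congr rfl fun t ht => ?_
      rw [hgz]
      simp only
      rw [hh2 t ht, mul_comm]
    rw [sum_add_distrib, ← e1, s3]
    rw [hgz]
    ring
  have hB1 : (2 : ℝ) * F.card = ∑ _t ∈ F, (2 : ℝ) := by
    rw [sum_const, nsmul_eq_mul]
    ring
  have hB2 : ∑ _t ∈ F, (2 : ℝ) ≤ ∑ t ∈ F, (z t / (L (w (w t)) * L (w (w (h t)))) +
      z (h t) / (L (w (w t)) * L (w (w (h t))))) := sum_le_sum fun t ht => hstar t ht
  rw [hcard] at horo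
  have hA3 : ∑ _t ∈ T0, (3 / 2 : ℝ) = ∑ t ∈ T0, (hf t + hf (w t) + hf (w (w t))) := by linarith
  have hB3 : ∑ _t ∈ F, (2 : ℝ) = ∑ t ∈ F, (z t / (L (w (w t)) * L (w (w (h t)))) +
      z (h t) / (L (w (w t)) * L (w (w (h t))))) := by linarith
  refine ⟨fun t ht h1 h2 h3 => ?_, fun t ht => ?_⟩
  · have h4 := (sum_eq_sum_iff_of_le fun t ht => (hT t ht).1).1 hA3 t ((mT0 t).2 ⟨ht, h1, h2, h3⟩)
    exact (hT t ((mT0 t).2 ⟨ht, h1, h2, h3⟩)).2 h4.symm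
  · exact ((sum_eq_sum_iff_of_le fun t ht => hstar t ht).1 hB3 t ht).symm

end Pool.Agent.H78.UN
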