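import Pool.Agent.H78.UN.Tran

set_option autoImplicit false

/-!
Author: helper82. Project UN (MP_bf82d2_ag, uniformisation), module Cpt: the algebra generated by two quadratic
elements.
-/

namespace Pool.Agent.H78.UN

open Finset Module

variable {G : Type} [Group G]

/-- `f (z g)` is a combination of `f z`, `f (z x)`, `f (z y)`, `f (z x y)` with coefficients which do not depend on
`f ∈ M` and `z` -/
def QD (M : Submodule ℂ (G → ℂ)) (x y g : G) : Prop :=
  ∃ a b c e : ℂ, ∀ f ∈ M, ∀ z : G, f (z * g) = a * f z + b * f (z * x) + c * f (z * y) + e * f (z * (x * y))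

/-- quadratic elements: powers are combinations of `1` and `x` -/
theorem quad_pow (M : Submodule ℂ (G → ℂ)) (right : ∀ f ∈ M, ∀ g : G, (fun x => f (x * g)) ∈ M) (x : G) (p : ℂ)
    (hx : ∀ f ∈ M, ∀ u, f (u * x) + f (u * x⁻¹) = p * f u) (k : ℕ) :
    ∃ a b : ℂ, ∀ f ∈ M, ∀ z, f (z * x ^ k) = a * f z + b * f (z * x) := by
  induction k with
  | zero => exact ⟨1, 0, fun f _ z => by rw [pow_zero, mul_one]; ring⟩
  | succ k ih =>
    obtain ⟨a, b, h⟩ := ih
    refine ⟨-b, a + b * p, fun f hf z => ?_⟩
    have h1 := h _ (right f hf x) z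
    have h2 := hx f hf (z * x)
    rw [mul_inv_cancel_right] at h2
    rw [pow_succ, ← mul_assoc, h1]
    linear_combination b * h2

/-- `M` stable under right translations; `x + x⁻¹`, `y + y⁻¹` and `d + d⁻¹` are scalars on `M`, where `x y = c² d⁻¹`,
`c` central and a power of `x`; `G = ⟨x, y⟩`.  Then `f (z g)` is a combination of `f z`, `f (z x)`, `f (z y)`, `f (z x y)` for
all `g`, with coefficients which do not depend on `f ∈ M` and `z`.  (`f (z c) = α f z + β f (z x)`; if `β ≠ 0` then
`f (z y x) = f (z x y)`; if `β = 0` use the relation for `d`.)  So `dim M ≤ 4`. -/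
theorem quad_dim [Fintype G] (M : Submodule ℂ (G → ℂ)) (right : ∀ f ∈ M, ∀ g : G, (fun x => f (x * g)) ∈ M)
    (x y c d : G) (hg : Subgroup.closure {x, y} = ⊤) (hc : c ∈ Subgroup.center G) (hcx : c ∈ Subgroup.zpowers x)
    (hd : x * y = c * c * d⁻¹)
    (hx : ∃ p : ℂ, ∀ f ∈ M, ∀ u, f (u * x) + f (u * x⁻¹) = p * f u)
    (hy : ∃ p : ℂ, ∀ f ∈ M, ∀ u, f (u * y) + f (u * y⁻¹) = p * f u)
    (hdd : ∃ p : ℂ, ∀ f ∈ M, ∀ u, f (u * d) + f (u * d⁻¹) = p * f u) :
    finrank ℂ M ≤ 4 := by
  classical
  obtain ⟨p, hx⟩ := hx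
  obtain ⟨q, hy⟩ := hy
  obtain ⟨r, hdd⟩ := hdd
  by_cases hM : M = ⊥
  · rw [hM, finrank_bot]
    exact Nat.zero_le _
  have hz : ∀ g : G, g * c = c * g := fun g => Subgroup.mem_center_iff.1 hc g
  -- the quadratic relations
  have hxx : ∀ f ∈ M, ∀ z, f (z * x * x) = p * f (z * x) - f z := by
    intro f hf z
    have h2 := hx f hf (z * x)
    rw [mul_inv_cancel_right] at h2
    linear_combination h2
  have hyy : ∀ f ∈ M, ∀ z, f (z * y * y) = q * f (z * y) - f z := by
    intro f hf z
    have h2 := hy f hf (z * y)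
    rw [mul_inv_cancel_right] at h2
    linear_combination h2
  have hxxy : ∀ f ∈ M, ∀ z, f (z * x * x * y) = p * f (z * x * y) - f (z * y) := by
    intro f hf z
    exact hxx _ (right f hf y) z
  -- the relation for `y x`
  have hyx : ∃ a b e h : ℂ, ∀ f ∈ M, ∀ z, f (z * y * x) = a * f z + b * f (z * x) + e * f (z * y) + h * f (z * x * y) := by
    obtain ⟨k, hk⟩ := (mem_powers_iff_mem_zpowers.2 hcx : c ∈ Submonoid.powers x)
    simp only at hk
    obtain ⟨α, β, hαβ⟩ := quad_pow M right x p hx k
    rw [hk] at hαβ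
    by_cases hβ : β = 0
    · subst hβ
      have hα' : ∀ f ∈ M, ∀ z, f (z * c) = α * f z := by
        intro f hf z
        rw [hαβ f hf z]
        ring
      have hα : α ≠ 0 := by
        intro h0
        apply hM
        rw [Submodule.eq_bot_iff]
        intro f hf
        funext u
        have := hα' f hf (u * c⁻¹)
        rw [inv_mul_cancel_right, h0, zero_mul] at this
        exact this
      have e1 : ∀ f ∈ M, ∀ u, f (u * x * y) = α ^ 2 * f (u * d⁻¹) := by
        intro f hf u
        have h1 : u * x * y = u * d⁻¹ * c * c := by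
          have h2 : d⁻¹ * c * c = c * c * d⁻¹ := by rw [hz d⁻¹, mul_assoc, hz d⁻¹, ← mul_assoc]
          rw [mul_assoc u x y, hd, ← h2, ← mul_assoc, ← mul_assoc]
        rw [h1, hα' f hf, hα' f hf]
        ring
      have e2 : ∀ f ∈ M, ∀ u, f (u * d) = α ^ 2 * f (u * y⁻¹ * x⁻¹) := by
        intro f hf u
        have h0 : d = (x * y)⁻¹ * c * c := by
          rw [hd]
          have h3 : (c * c * d⁻¹)⁻¹ = d * (c * c)⁻¹ := by group
          rw [h3]
          group
        have h1 : u * d = u * y⁻¹ * x⁻¹ * c * c := by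
          rw [h0, mul_inv_rev]
          simp only [mul_assoc]
        rw [h1, hα' f hf, hα' f hf]
        ring
      have e3 : ∀ f ∈ M, ∀ u, f (u * y⁻¹ * x⁻¹) = p * q * f u - p * f (u * y) - q * f (u * x) + f (u * y * x) := by
        intro f hf u
        have h1 := hx f hf (u * y⁻¹)
        have h2 := hy f hf u
        have h3 := hy _ (right f hf x) u
        linear_combination h1 + p * h2 - h3
      refine ⟨(α ^ 2)⁻¹ * r - p * q, q, p, -(α ^ 2)⁻¹ ^ 2, fun f hf z => ?_⟩
      have h1 := e1 f hf z
      have h2 := e2 f hf z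
      have h3 := e3 f hf z
      have h4 := hdd f hf z
      have hα2 : α ^ 2 ≠ 0 := pow_ne_zero 2 hα
      have h5 : f (z * d⁻¹) = (α ^ 2)⁻¹ * f (z * x * y) := by
        rw [h1, ← mul_assoc, inv_mul_cancel₀ hα2, one_mul]
      have h6 : f (z * y⁻¹ * x⁻¹) = (α ^ 2)⁻¹ * f (z * d) := by
        rw [h2, ← mul_assoc, inv_mul_cancel₀ hα2, one_mul]
      have h7 : f (z * d) = r * f z - (α ^ 2)⁻¹ * f (z * x * y) := by
        rw [← h5]
        linear_combination h4
      rw [h7] at h6
      linear_combination h6 - h3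
    · refine ⟨0, 0, 0, 1, fun f hf z => ?_⟩
      have h1 := hαβ _ (right f hf y) z
      have h2 := hαβ f hf (z * y)
      have h3 : z * c * y = z * y * c := by
        rw [mul_assoc, mul_assoc, hz y]
      rw [h3, h2] at h1
      have h4 : β * (f (z * y * x) - f (z * x * y)) = 0 := by linear_combination h1
      have h5 := (mul_eq_zero.1 h4).resolve_left hβ
      linear_combination h5
  obtain ⟨a₁, b₁, c₁, e₁, hyx⟩ := hyx
  have hxyx : ∀ f ∈ M, ∀ z, f (z * x * y * x) =
      a₁ * f (z * x) + b₁ * (p * f (z * x) - f z) + c₁ * f (z * x * y) + e₁ * (p * f (z * x * y) - f (z * y)) := by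
    intro f hf z
    rw [hyx f hf (z * x), hxx f hf z, hxxy f hf z]
  -- closure under right multiplication
  have stepx : ∀ g, QD M x y g → QD M x y (g * x) := by
    rintro g ⟨a, b, c', e, h⟩
    refine ⟨-b + c' * a₁ - e * b₁, a + b * p + c' * b₁ + e * (a₁ + b₁ * p), c' * c₁ - e * e₁,
      c' * e₁ + e * (c₁ + e₁ * p), fun f hf z => ?_⟩
    have h1 := h _ (right f hf x) z
    have h2 := hxx f hf z
    have h3 := hyx f hf z
    have h4 := hxyx f hf z
    rw [← mul_assoc] at h1
    rw [← mul_assoc, h1, ← mul_assoc z x y, h2, h3, h4]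
    ring
  have stepy : ∀ g, QD M x y g → QD M x y (g * y) := by
    rintro g ⟨a, b, c', e, h⟩
    refine ⟨-c', -e, a + c' * q, b + e * q, fun f hf z => ?_⟩
    have h1 := h _ (right f hf y) z
    have h2 := hyy f hf z
    have h3 := hyy f hf (z * x)
    rw [← mul_assoc] at h1
    rw [← mul_assoc, h1, ← mul_assoc z x y, h2, h3]
    ring
  have stepx' : ∀ g, QD M x y g → ∀ k : ℕ, QD M x y (g * x ^ k) := by
    intro g h k
    induction k with
    | zero => rwa [pow_zero, mul_one]
    | succ k ih =>
      rw [pow_succ, ← mul_assoc]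
      exact stepx _ ih
  have stepy' : ∀ g, QD M x y g → ∀ k : ℕ, QD M x y (g * y ^ k) := by
    intro g h k
    induction k with
    | zero => rwa [pow_zero, mul_one]
    | succ k ih =>
      rw [pow_succ, ← mul_assoc]
      exact stepy _ ih
  have inv_pow' : ∀ g : G, ∃ k : ℕ, g⁻¹ = g ^ k := by
    intro g
    obtain ⟨k, hk⟩ := (mem_powers_iff_mem_zpowers.2 (inv_mem (Subgroup.mem_zpowers g)) : g⁻¹ ∈ Submonoid.powers g)
    exact ⟨k, hk.symm⟩
  have all : ∀ g, QD M x y g := by
    intro g
    have hgm : g ∈ Subgroup.closure ({x, y} : Set G) := by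
      rw [hg]
      exact Subgroup.mem_top g
    induction hgm using Subgroup.closure_induction_right with
    | one => exact ⟨1, 0, 0, 0, fun f _ z => by rw [mul_one]; ring⟩
    | mul_right g _ u hu ih =>
      rcases hu with rfl | hu
      · exact stepx _ ih
      · rw [Set.mem_singleton_iff] at hu
        subst hu
        exact stepy _ ih
    | mul_inv_cancel g _ u hu ih =>
      obtain ⟨k, hk⟩ := inv_pow' u
      rw [hk]
      rcases hu with rfl | hu
      · exact stepx' _ ih k
      · rw [Set.mem_singleton_iff] at hu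
        subst hu
        exact stepy' _ ih k
  -- evaluation at four points
  let φ : M →ₗ[ℂ] (Fin 4 → ℂ) :=
    { toFun := fun f => ![f.1 1, f.1 x, f.1 y, f.1 (x * y)]
      map_add' := by
        intro f g
        funext i
        fin_cases i <;> rfl
      map_smul' := by
        intro r f
        funext i
        fin_cases i <;> rfl }
  have hφ : Function.Injective φ := by
    rw [← LinearMap.ker_eq_bot, LinearMap.ker_eq_bot']
    intro f hf
    have h0 : f.1 1 = 0 := congrFun hf 0
    have h1 : f.1 x = 0 := congrFun hf 1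
    have h2 : f.1 y = 0 := congrFun hf 2
    have h3 : f.1 (x * y) = 0 := congrFun hf 3
    apply Subtype.ext
    funext g
    obtain ⟨a, b, c', e, h⟩ := all g
    have h4 := h f.1 f.2 1
    rw [one_mul, one_mul, one_mul, one_mul, h0, h1, h2, h3] at h4
    rw [h4]
    show _ = (0 : ℂ)
    ring
  have := LinearMap.finrank_le_finrank_of_injective hφ
  rwa [Module.finrank_fin_fun] at this

end Pool.Agent.H78.UN
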