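import Pool.Agent.H78.UN.Tran
import Pool.Agent.H78.UN.Ari2

set_option autoImplicit false

/-!
PROJECT UN (MP_bf82d2_ag, uniformisation), module Cpt2 (helper19): the case of a compact Shimura curve.
-/

namespace Pool.Agent.H78.UN

open Finset Module

variable {G : Type} [Group G] [Fintype G]

omit [Fintype G] in
/-- the first strand central and `t` of compact type: the first alternative holds unless `G` is commutative -/
theorem tree_first {t : Fin 4 → G} (hp : t 0 * t 1 * t 2 * t 3 = 1)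
    (hg : Subgroup.closure (Set.range t) = ⊤) (hnc : ∃ x y : G, x * y ≠ y * x)
    (h0 : t 0 ∈ Subgroup.center G) (ht : Tree t) :
    t 0 ∈ Subgroup.zpowers (t 0 * t 1) ∧ t 1 ∈ Subgroup.zpowers (t 0 * t 1) := by
  rcases ht with h1 | ⟨h2, h3⟩
  · exact h1
  · exfalso
    have hp1 : t 1 * t 2 * t 3 * t 0 = 1 := ro_prod hp
    have hp2 : t 2 * t 3 * t 0 * t 1 = 1 := ro_prod (t := ro t) hp1
    have c23 := comm_zp h2 h3
    have c0 : ∀ x : G, x * t 0 = t 0 * x := fun x => Subgroup.mem_center_iff.1 h0 x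
    have c21 : t 2 * t 1 = t 1 * t 2 := comm4 hp2 rfl c23 (c0 (t 2))
    have c31 : t 3 * t 1 = t 1 * t 3 := comm4 hp2 c23.symm rfl (c0 (t 3))
    have z2 : t 2 ∈ Subgroup.center G := central_of hg (c0 _) c21 rfl c23
    have z3 : t 3 ∈ Subgroup.center G := central_of hg (c0 _) c31 c23.symm rfl
    have z1 : t 1 ∈ Subgroup.center G := central_of hg (c0 _) rfl c21.symm c31.symm
    have hle : Subgroup.closure (Set.range t) ≤ Subgroup.center G := by
      rw [Subgroup.closure_le]
      rintro _ ⟨i, rfl⟩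
      fin_cases i
      · exact h0
      · exact z1
      · exact z2
      · exact z3
    rw [hg] at hle
    obtain ⟨x, y, hxy⟩ := hnc
    exact hxy (Subgroup.mem_center_iff.1 (hle (Subgroup.mem_top y)) x)

omit [Fintype G] in
/-- All collisions of compact type and `G` not commutative: after a rotation the first strand is central, and it is a power of
`t 0 t 1`. -/
theorem all_tree {s : Fin 4 → G} (hp : s 0 * s 1 * s 2 * s 3 = 1) (hg : Subgroup.closure (Set.range s) = ⊤)
    (hnc : ∃ x y : G, x * y ≠ y * x) (hall : ∀ t, Tr s t → Tree t) :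
    ∃ t, Tr s t ∧ t 0 ∈ Subgroup.center G ∧ t 0 ∈ Subgroup.zpowers (t 0 * t 1) := by
  have key : ∀ t, Tr s t → t 0 ∈ Subgroup.center G →
      ∃ t, Tr s t ∧ t 0 ∈ Subgroup.center G ∧ t 0 ∈ Subgroup.zpowers (t 0 * t 1) := fun t ht h0 =>
    ⟨t, ht, h0, (tree_first (tr_prod ht hp) (tr_gen ht hg) hnc h0 (hall t ht)).1⟩
  have hex : ∃ i, s i ∈ Subgroup.center G := by
    by_contra hno
    push Not at hno
    exact tree_adj s hp hg hno (hall s Tr.base) (hall _ (Tr.ro _ Tr.base))
  obtain ⟨i, hi⟩ := hex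
  have r1 : Tr s (ro s) := Tr.ro _ Tr.base
  have r2 : Tr s (ro (ro s)) := Tr.ro _ r1
  have r3 : Tr s (ro (ro (ro s))) := Tr.ro _ r2
  fin_cases i
  · exact key s Tr.base hi
  · exact key _ r1 hi
  · exact key _ r2 hi
  · exact key _ r3 hi

theorem noether4 (n : ℕ) (m : Fin 4 → ℕ) (hm : ∀ i, 2 ≤ m i) (hm2 : ∃ i, m i ≠ 2)
    (h : (n : ℝ) * (1 - ∑ i, 1 / (m i : ℝ) ^ 2) < 24) : n ≤ 172 := by
  have hs := noether_sum m hm hm2
  by_contra hn
  have hn' : (173 : ℝ) ≤ n := by exact_mod_cast not_le.1 hn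
  nlinarith

end Pool.Agent.H78.UN
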