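import Mathlib
import Pool.Agent.H78.WL.Defs

set_option autoImplicit false

/-!
PROJECT UN (MP_bf82d2_ag, uniformisation).  Definitions.
-/

namespace Pool.Agent.H78.UN

open Finset Module
open Pool.Agent.H52.VC (RC)
open Pool.Agent.H78.WL (wall)

variable {G : Type} [Group G] [Fintype G]

/-- the half twist of the first two strands -/
def hs (t : Fin 4 → G) : Fin 4 → G := ![t 0 * t 1 * (t 0)⁻¹, t 0, t 2, t 3]

/-- the rotation of the strands -/
def ro (t : Fin 4 → G) : Fin 4 → G := ![t 1, t 2, t 3, t 0]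

/-- the rotation of a Farey triangle -/
def w (t : Fin 4 → G) : Fin 4 → G := ro (hs t)

/-- the braid translates of `s` -/
inductive Tr (s : Fin 4 → G) : (Fin 4 → G) → Prop
  | base : Tr s s
  | hs (t : Fin 4 → G) (h : Tr s t) : Tr s (hs t)
  | ro (t : Fin 4 → G) (h : Tr s t) : Tr s (ro t)

/-- the degenerate curve at the collision of the first two points is of compact type -/
def Tree (t : Fin 4 → G) : Prop :=
  (t 0 ∈ Subgroup.zpowers (t 0 * t 1) ∧ t 1 ∈ Subgroup.zpowers (t 0 * t 1)) ∨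
    (t 2 ∈ Subgroup.zpowers (t 0 * t 1) ∧ t 3 ∈ Subgroup.zpowers (t 0 * t 1))

/-- the vanishing cycles at the collision of the first two points -/
def HR (t : Fin 4 → G) : Submodule ℂ (G → ℂ) :=
  RC (t 0 * t 1) (Subgroup.closure {t 0, t 1}) (Subgroup.closure {t 2, t 3})

open Classical in
/-- `E_b (1 - p) (1 - q) f` -/
noncomputable def star2 (b p q : G) (f : G → ℂ) (x : G) : ℂ :=
  ∑ k : Subgroup.zpowers b, (f (x * k) - f (x * k * p) - f (x * k * q) + f (x * k * p * q))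

open Classical in
/-- The conditions satisfied by a non-compact Shimura curve: `lam t` is the lambda length of the edge between the
collisions `t 0 t 1` and `t 1 t 2` if they are not of compact type; if `t` is a tree and `ro t` is not, `z t` is the
lambda length between the collision `t 1 t 2` and its image under the full twist of the first two strands. -/
structure Shim (s : Fin 4 → G) (lam z : (Fin 4 → G) → ℝ) : Prop where
  lam_pos : ∀ t, Tr s t → 0 < lam t
  z_pos : ∀ t, Tr s t → 0 < z t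
  lam_conj : ∀ t (g : G), Tr s t → lam (fun i => g * t i * g⁻¹) = lam t
  z_ro : ∀ t, Tr s t → z (ro (ro t)) = z t
  noether : ∀ t, Tr s t → ¬ Tree t →
    (Nat.card G : ℝ) * (1 - ∑ i, 1 / (orderOf (s i) : ℝ) ^ 2) < 6 * finrank ℂ (HR t)
  edge : ∀ t, Tr s t → ¬ Tree t → ¬ Tree (ro t) → ∀ f ∈ HR t, ∀ x,
    wall (t 0 * t 1) (t 1 * t 2) (t 1) f x =
      ((lam t ^ 2 * orderOf (t 0 * t 1) * orderOf (t 1 * t 2) : ℝ) : ℂ) * f x
  elliptic : ∀ t, Tr s t → Tree t →
    orderOf (t 0 * t 1) = 3 ∨ orderOf (t 0 * t 1) = 4 ∨ orderOf (t 0 * t 1) = 6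
  star : ∀ t, Tr s t → ¬ Tree (ro t) →
    t 0 ∈ Subgroup.zpowers (t 0 * t 1) → t 1 ∈ Subgroup.zpowers (t 0 * t 1) →
    ∀ f ∈ HR (ro t), ∑ x, ‖star2 (t 1 * t 2) (t 0) (t 1) f x‖ ^ 2 =
      z t ^ 2 * (orderOf (t 1 * t 2) : ℝ) ^ 2 * ∑ x, ‖f x‖ ^ 2
  diag : ∀ t, Tr s t → Tree t → ¬ Tree (ro t) → ¬ Tree (ro (hs t)) →
    z t * z (hs t) = lam (w (w t)) ^ 2 + lam (w (w (hs t))) ^ 2 +
      2 * lam (w (w t)) * lam (w (w (hs t))) * Real.cos (Real.pi / orderOf (t 0 * t 1))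
  adj : ∀ t, Tr s t → Tree t → Tree (ro t) →
    z (hs t) = 2 * Real.cos (Real.pi / orderOf (t 0 * t 1)) + 2 * Real.cos (Real.pi / orderOf (t 1 * t 2)) ∧
    z (hs (ro t)) = 2 * Real.cos (Real.pi / orderOf (t 0 * t 1)) + 2 * Real.cos (Real.pi / orderOf (t 1 * t 2))
  horo : (∀ t, Tr s t → Tree t → ¬ Tree (ro t)) →
    ∑ t ∈ univ.filter (fun t => Tr s t ∧ ¬ Tree t ∧ ¬ Tree (w t) ∧ ¬ Tree (w (w t))),
      lam (w (w t)) / (lam t * lam (w t)) +
    ∑ t ∈ univ.filter (fun t => Tr s t ∧ Tree t), z t / (lam (w (w t)) * lam (w (w (hs t)))) =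
      (Nat.card {t // Tr s t ∧ ¬ Tree t} : ℝ) / 2

/-- The conditions satisfied by a compact Shimura curve: `M` is the sum of the matrix coefficients of the irreducible
representations of `G` on whose isotypic part the variation of Hodge structure is not unitary. -/
structure ShimC (s : Fin 4 → G) (M : Submodule ℂ (G → ℂ)) : Prop where
  right : ∀ f ∈ M, ∀ g : G, (fun x => f (x * g)) ∈ M
  quad : ∀ t, Tr s t → ∃ p : ℂ, ∀ f ∈ M, ∀ x, f (x * (t 0 * t 1)) + f (x * (t 0 * t 1)⁻¹) = p * f x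
  noether : (Nat.card G : ℝ) * (1 - ∑ i, 1 / (orderOf (s i) : ℝ) ^ 2) < 6 * finrank ℂ M

end Pool.Agent.H78.UN
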