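import Pool.Agent.H78.UN.Defs

set_option autoImplicit false

/-!
PROJECT UN (MP_bf82d2_ag, uniformisation): the conditions `Shim` hold for the Legendre family (the double covers of the
line with four branch points), with all lambda lengths equal to `2` (helper19).
-/

namespace Pool.Agent.H78.UN

open Finset Module
open Pool.Agent.H52.VC (RC mem_RC)
open Pool.Agent.H78.WL (wall)

private abbrev C2 : Type := Multiplicative (ZMod 2)

private abbrev gg : C2 := Multiplicative.ofAdd 1

private theorem ex_sq : gg * gg = 1 := by decide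

private theorem ex_inv : (gg)⁻¹ = gg := by decide

private theorem ex_ne : gg ≠ 1 := by decide

private theorem ex_all : ∀ y : C2, y = 1 ∨ y = gg := by decide

private theorem ex_top {G : Type} [Group G] [Fintype G] (H : Subgroup G) [Fintype H] (hH : H = ⊤)
    (F : G → ℂ) : ∑ h : H, F h = ∑ g : G, F g := by
  subst hH
  exact Fintype.sum_equiv Subgroup.topEquiv.toEquiv _ _ fun h => rfl

private theorem ex_bot {G : Type} [Group G] (H : Subgroup G) [Fintype H] (hH : H = ⊥)
    (F : G → ℂ) : ∑ h : H, F h = F 1 := by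
  subst hH
  rw [Fintype.sum_unique]
  rfl

private theorem ex_tr (t : Fin 4 → C2) (h : Tr (fun _ => gg) t) : t = fun _ => gg := by
  induction h with
  | base => rfl
  | hs t _ ih =>
    rw [ih]
    funext i
    fin_cases i <;> rfl
  | ro t _ ih =>
    rw [ih]
    funext i
    fin_cases i <;> rfl

private theorem ex_zp : Subgroup.zpowers (gg * gg) = ⊥ := by
  rw [ex_sq, Subgroup.zpowers_one_eq_bot]

private theorem ex_not : ¬ Tree (fun _ : Fin 4 => gg) := by
  intro h
  have key : ¬ gg ∈ Subgroup.zpowers (gg * gg) := by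
    rw [ex_zp, Subgroup.mem_bot]
    exact ex_ne
  rcases h with ⟨h, -⟩ | ⟨h, -⟩
  · exact key h
  · exact key h

private theorem ex_cl : Subgroup.closure {gg, gg} = (⊤ : Subgroup C2) := by
  rw [eq_top_iff]
  intro x _
  have h1 : gg ∈ Subgroup.closure ({gg, gg} : Set C2) := Subgroup.subset_closure (by simp)
  rcases ex_all x with rfl | rfl
  · exact Subgroup.one_mem _
  · exact h1

private theorem ex_mem (f : C2 → ℂ) : f ∈ HR (fun _ : Fin 4 => gg) ↔ ∀ x, f (x * gg) = - f x := by
  classical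
  have e2 : (univ : Finset C2) = {1, gg} := by decide
  have hs : ∀ (H : Subgroup C2) [Fintype H], H = ⊤ → ∀ x : C2,
      ∑ h : H, f (x * h) = f x + f (x * gg) := by
    intro H _ hH x
    rw [ex_top H hH (fun y => f (x * y)), e2, sum_pair ex_ne.symm, mul_one]
  have hs2 := hs (Subgroup.closure {gg, gg}) ex_cl
  unfold HR
  rw [mem_RC]
  constructor
  · rintro ⟨-, h, -⟩ x
    have h1 := h x
    have h2 : f x + f (x * gg) = 0 := by
      rw [← hs2 x]
      convert h1 using 2
    exact eq_neg_of_add_eq_zero_right h2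
  · intro h
    have h3 : ∀ x, ∑ h : Subgroup.closure {gg, gg}, f (x * h) = 0 := by
      intro x
      rw [hs2 x, h x, add_neg_cancel]
    refine ⟨fun x => ?_, fun x => ?_, fun x => ?_⟩
    · show f (x * (gg * gg)) = f x
      rw [ex_sq, mul_one]
    · convert h3 x using 2
    · convert h3 x using 2

private theorem ex_rank : 0 < finrank ℂ (HR (fun _ : Fin 4 => gg)) := by
  let f : C2 → ℂ := fun x => if x = 1 then 1 else -1
  have hf : f ∈ HR (fun _ : Fin 4 => gg) := by
    rw [ex_mem]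
    intro x
    rcases ex_all x with rfl | rfl
    · show (if 1 * gg = 1 then (1 : ℂ) else -1) = -(if (1 : C2) = 1 then 1 else -1)
      rw [one_mul, if_neg ex_ne, if_pos rfl]
    · show (if gg * gg = 1 then (1 : ℂ) else -1) = -(if gg = 1 then 1 else -1)
      rw [if_pos ex_sq, if_neg ex_ne, neg_neg]
  have hne : (⟨f, hf⟩ : HR (fun _ : Fin 4 => gg)) ≠ 0 := by
    intro h
    have h1 : f = 0 := congrArg Subtype.val h
    have h2 := congrFun h1 1
    have h3 : f 1 = 1 := if_pos rfl
    rw [h3] at h2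
    exact one_ne_zero h2
  have : Nontrivial (HR (fun _ : Fin 4 => gg)) := ⟨⟨_, _, hne⟩⟩
  exact finrank_pos

private theorem ex_wall (f : C2 → ℂ) (hf : ∀ x, f (x * gg) = - f x) (x : C2) :
    wall (gg * gg) (gg * gg) gg f x = 4 * f x := by
  classical
  unfold wall
  rw [ex_bot (Subgroup.zpowers (gg * gg)) ex_zp (fun y => ∑ k : Subgroup.zpowers (gg * gg),
    (f (x * y * k) - f (x * y * k * gg) - f (x * y * gg⁻¹ * k) + f (x * y * gg⁻¹ * k * gg))),
    ex_bot (Subgroup.zpowers (gg * gg)) ex_zp (fun k =>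
    (f (x * 1 * k) - f (x * 1 * k * gg) - f (x * 1 * gg⁻¹ * k) + f (x * 1 * gg⁻¹ * k * gg)))]
  rw [ex_inv, mul_one, mul_one, mul_one, mul_assoc, ex_sq, mul_one, hf]
  ring

/-- the conditions hold for the Legendre family -/
theorem legendre : Shim (G := Multiplicative (ZMod 2)) (fun _ => Multiplicative.ofAdd 1) (fun _ => 2)
    (fun _ => 1) := by
  classical
  have hT : ∀ t : Fin 4 → C2, Tr (fun _ => gg) t → ¬ Tree t := fun t h => by
    rw [ex_tr t h]
    exact ex_not
  have hTr : ∀ t : Fin 4 → C2, (Tr (fun _ => gg) t ∧ ¬ Tree t) ↔ t = fun _ => gg := fun t => by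
    constructor
    · exact fun h => ex_tr t h.1
    · rintro rfl
      exact ⟨Tr.base, ex_not⟩
  refine ⟨fun t _ => by norm_num, fun t _ => by norm_num, fun t g _ => rfl, fun t _ => rfl, ?_, ?_, ?_,
    ?_, ?_, ?_, ?_⟩
  · intro t ht _
    rw [ex_tr t ht]
    have h1 : orderOf gg = 2 := orderOf_eq_prime (by rw [pow_two]; exact ex_sq) ex_ne
    have h2 : ∑ i : Fin 4, 1 / (orderOf ((fun _ : Fin 4 => gg) i) : ℝ) ^ 2 = 1 := by
      show ∑ _i : Fin 4, 1 / (orderOf gg : ℝ) ^ 2 = 1
      rw [h1, sum_const, card_univ, Fintype.card_fin]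
      norm_num
    rw [h2, sub_self, mul_zero]
    have h3 : (0 : ℝ) < finrank ℂ (HR (fun _ : Fin 4 => gg)) := by exact_mod_cast ex_rank
    linarith
  · intro t ht _ _ f hf x
    rw [ex_tr t ht] at hf ⊢
    rw [ex_mem] at hf
    show wall (gg * gg) (gg * gg) gg f x = (((2 : ℝ) ^ 2 * orderOf (gg * gg) * orderOf (gg * gg) : ℝ) : ℂ) * f x
    rw [ex_wall f hf x, ex_sq, orderOf_one]
    norm_num
  · exact fun t ht h => absurd h (hT t ht)
  · intro t ht _ h
    exfalso
    rw [ex_tr t ht] at h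
    have h2 : gg ∈ Subgroup.zpowers (gg * gg) := h
    rw [ex_zp, Subgroup.mem_bot] at h2
    exact ex_ne h2
  · exact fun t ht h => absurd h (hT t ht)
  · exact fun t ht h => absurd h (hT t ht)
  · intro _
    have e1 : univ.filter (fun t : Fin 4 → C2 => Tr (fun _ => gg) t ∧ ¬ Tree t ∧ ¬ Tree (w t) ∧
        ¬ Tree (w (w t))) = {fun _ => gg} := by
      ext t
      rw [mem_filter, mem_singleton]
      constructor
      · exact fun h => ex_tr t h.2.1
      · rintro rfl
        exact ⟨mem_univ _, Tr.base, ex_not, hT _ (Tr.ro _ (Tr.hs _ Tr.base)),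
          hT _ (Tr.ro _ (Tr.hs _ (Tr.ro _ (Tr.hs _ Tr.base))))⟩
    have e2 : univ.filter (fun t : Fin 4 → C2 => Tr (fun _ => gg) t ∧ Tree t) = ∅ := by
      rw [filter_eq_empty_iff]
      exact fun t _ h => hT t h.1 h.2
    have e3 : Nat.card {t : Fin 4 → C2 // Tr (fun _ => gg) t ∧ ¬ Tree t} = 1 := by
      have h1 : {t : Fin 4 → C2 | Tr (fun _ => gg) t ∧ ¬ Tree t} = {fun _ => gg} := by
        ext t
        exact hTr t
      show Nat.card {t : Fin 4 → C2 | Tr (fun _ => gg) t ∧ ¬ Tree t} = 1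
      rw [h1, Nat.card_coe_set_eq, Set.ncard_singleton]
    rw [e3]
    have e1' : ∑ t ∈ univ.filter (fun t : Fin 4 → C2 => Tr (fun _ => gg) t ∧ ¬ Tree t ∧ ¬ Tree (w t) ∧
        ¬ Tree (w (w t))), (2 : ℝ) / (2 * 2) = 1 / 2 := by
      rw [e1, sum_singleton]
      norm_num
    have e2' : ∑ t ∈ univ.filter (fun t : Fin 4 → C2 => Tr (fun _ => gg) t ∧ Tree t),
        (1 : ℝ) / (2 * 2) = 0 := by
      rw [e2, sum_empty]
    have e4 : (1 : ℝ) / 2 + 0 = ((1 : ℕ) : ℝ) / 2 := by norm_num
    rw [← e4, ← e1', ← e2']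

end Pool.Agent.H78.UN
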