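import Pool.Agent.H78.UN.Defs
import Pool.Agent.H52.WP.Etale

set_option autoImplicit false

/-!
PROJECT UN (MP_bf82d2_ag, uniformisation), module Star (helper52).

`u = (1 - p) (1 - q) f`, `p q = a`, `p, q ∈ ⟨a⟩`.  `∑ ‖star2 b p q f‖² ≤ |b|² ∑ ‖u‖²`; for `|a| = 3`: `p = q`, `∑ ‖u‖² ≤ 9 ∑ ‖f‖²`;
`|a| = 4`: one of `p, q` is `a²`, `∑ ‖u‖² ≤ 8 ∑ ‖f‖²`; `|a| = 6`: `{p, q} = {a², a⁻¹}` or `{a³, a⁻²}`, `∑ ‖u‖² ≤ 12 ∑ ‖f‖²`.
-/

namespace Pool.Agent.H78.UN

open Finset Module
open Pool.Agent.H52.VC (RC mem_RC)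
open Pool.Agent.H78.WL (wall sm sm_apply sm_sm Adj_sm)
open Pool.Agent.H52.WP (sum_tr sm_form wall_form RC_inv')

variable {G : Type} [Group G] [Fintype G]

/-- the difference operator -/
def St_d (c : G) (f : G → ℂ) (x : G) : ℂ := f x - f (x * c)

/-- the squared norm -/
noncomputable def St_N (f : G → ℂ) : ℝ := ∑ x, ‖f x‖ ^ 2

theorem St_N_nonneg (f : G → ℂ) : 0 ≤ St_N f := sum_nonneg fun _ _ => sq_nonneg _

theorem St_N_zero {f : G → ℂ} (h : St_N f = 0) : f = 0 := by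
  funext x
  have h1 := (sum_eq_zero_iff_of_nonneg fun x _ => sq_nonneg ‖f x‖).1 h x (mem_univ _)
  rwa [sq_eq_zero_iff, norm_eq_zero] at h1

theorem St_N_tr (c : G) (f : G → ℂ) : St_N (fun x => f (x * c)) = St_N f :=
  sum_tr c (fun x => ‖f x‖ ^ 2)

/-- parallelogram -/
theorem St_par (c : G) (f : G → ℂ) :
    St_N (St_d c f) + St_N (fun x => f x + f (x * c)) = 4 * St_N f := by
  have h1 : ∀ x, ‖St_d c f x‖ ^ 2 + ‖f x + f (x * c)‖ ^ 2 =
      2 * ‖f x‖ ^ 2 + 2 * ‖f (x * c)‖ ^ 2 := by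
    intro x
    have := parallelogram_law_with_norm ℝ (f x) (f (x * c))
    unfold St_d
    nlinarith
  have h2 := St_N_tr c f
  unfold St_N at h2 ⊢
  rw [← sum_add_distrib, sum_congr rfl fun x _ => h1 x, sum_add_distrib, ← mul_sum, ← mul_sum, h2]
  ring

theorem St_four (c : G) (f : G → ℂ) : St_N (St_d c f) ≤ 4 * St_N f := by
  have h1 := St_par c f
  have h2 := St_N_nonneg (fun x => f x + f (x * c))
  linarith

/-- pointwise identity for three complex numbers -/
theorem St_three_aux (a b c : ℂ) :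
    ‖a - b‖ ^ 2 + ‖b - c‖ ^ 2 + ‖c - a‖ ^ 2 + ‖a + b + c‖ ^ 2 =
      3 * (‖a‖ ^ 2 + ‖b‖ ^ 2 + ‖c‖ ^ 2) := by
  simp only [← Complex.normSq_eq_norm_sq, Complex.normSq_apply, Complex.sub_re, Complex.sub_im,
    Complex.add_re, Complex.add_im]
  ring

/-- an element with `c ^ 3 = 1` -/
theorem St_three (c : G) (hc : c * c * c = 1) (f : G → ℂ) :
    3 * St_N (St_d c f) + St_N (fun x => f x + f (x * c) + f (x * c * c)) = 9 * St_N f := by
  have h1 : ∀ x, ‖St_d c f x‖ ^ 2 + ‖St_d c f (x * c)‖ ^ 2 + ‖St_d c f (x * c * c)‖ ^ 2 +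
      ‖f x + f (x * c) + f (x * c * c)‖ ^ 2 =
      3 * (‖f x‖ ^ 2 + ‖f (x * c)‖ ^ 2 + ‖f (x * c * c)‖ ^ 2) := by
    intro x
    unfold St_d
    have h2 : x * c * c * c = x := by
      rw [mul_assoc, mul_assoc, ← mul_assoc c c c, hc, mul_one]
    rw [h2]
    exact St_three_aux _ _ _
  have h3 := St_N_tr c (St_d c f)
  have h4 := St_N_tr c f
  have h5 : St_N (fun x => St_d c f (x * c * c)) = St_N (St_d c f) :=
    (St_N_tr c (fun x => St_d c f (x * c))).trans h3
  have h6 : St_N (fun x => f (x * c * c)) = St_N f := (St_N_tr c (fun x => f (x * c))).trans h4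
  have h7 := sum_congr rfl fun (x : G) (_ : x ∈ univ) => h1 x
  simp only [sum_add_distrib, ← mul_sum] at h7
  unfold St_N at h3 h4 h5 h6 ⊢
  rw [h3, h5, h4, h6] at h7
  linarith

theorem St_three_le (c : G) (hc : c * c * c = 1) (f : G → ℂ) :
    St_N (St_d c f) ≤ 3 * St_N f := by
  have h1 := St_three c hc f
  have h2 := St_N_nonneg (fun x => f x + f (x * c) + f (x * c * c))
  linarith

/-- `c ^ 2` acts by `-1` on `v` -/
theorem St_two (c : G) (v : G → ℂ) (hv : ∀ x, v (x * c * c) = -v x) :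
    St_N (St_d c v) = 2 * St_N v := by
  have h1 := St_par c v
  have h2 : St_N (fun x => v x + v (x * c)) = St_N (St_d c v) := by
    rw [← St_N_tr c (fun x => v x + v (x * c))]
    unfold St_N St_d
    refine sum_congr rfl fun x _ => ?_
    show ‖v (x * c) + v (x * c * c)‖ ^ 2 = _
    rw [hv, ← norm_neg (v x - v (x * c))]
    congr 2
    ring
  linarith

/-- the norm of a coset sum -/
theorem St_sm (B : Subgroup G) (u : G → ℂ) :
    St_N (sm B u) = Nat.card B * (Nat.card B * St_N u -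
      (open Classical in ∑ x, ∑ h : B, ‖u (x * h) - u x‖ ^ 2) / 2) := by
  classical
  have h1 := Adj_sm B (sm B u) (fun x => star (u x))
  have h2 : ∀ x, sm B (fun x => star (u x)) x = star (sm B u x) := by
    intro x
    rw [sm_apply, sm_apply, star_sum]
  have h3 : ∀ x, sm B (sm B u) x = Nat.card B * sm B u x := fun x => sm_sm B B (le_refl B) u x
  have h4 : (∑ x, sm B u x * star (sm B u x)) = Nat.card B * ∑ x, sm B u x * star (u x) := by
    have e1 : (∑ x, sm B u x * star (sm B u x)) =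
        ∑ x, sm B u x * sm B (fun x => star (u x)) x :=
      sum_congr rfl fun x _ => by rw [h2 x]
    rw [e1, ← h1, mul_sum]
    refine sum_congr rfl fun x _ => ?_
    rw [h3 x]
    ring
  have h5 : (∑ x, sm B u x * star (sm B u x)).re = St_N (sm B u) := by
    rw [Complex.re_sum]
    unfold St_N
    refine sum_congr rfl fun x _ => ?_
    rw [Complex.star_def, Complex.mul_conj, Complex.ofReal_re, Complex.normSq_eq_norm_sq]
  rw [← h5, h4, ← Complex.ofReal_natCast, Complex.re_ofReal_mul, sm_form B u]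
  rfl

theorem St_sm_le (B : Subgroup G) (u : G → ℂ) :
    St_N (sm B u) ≤ (Nat.card B : ℝ) ^ 2 * St_N u := by
  classical
  rw [St_sm]
  have h1 : (0 : ℝ) ≤ ∑ x, ∑ h : B, ‖u (x * h) - u x‖ ^ 2 :=
    sum_nonneg fun x _ => sum_nonneg fun h _ => sq_nonneg _
  have h2 : (0 : ℝ) ≤ Nat.card B := Nat.cast_nonneg _
  nlinarith [mul_nonneg h2 h1]

theorem St_sm_eq (B : Subgroup G) (u : G → ℂ)
    (h : St_N (sm B u) = (Nat.card B : ℝ) ^ 2 * St_N u) (x : G) (k : G) (hk : k ∈ B) :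
    u (x * k) = u x := by
  classical
  rw [St_sm] at h
  have h2 : (0 : ℝ) < Nat.card B := by exact_mod_cast Nat.card_pos
  have h3 : (Nat.card B : ℝ) * (∑ x, ∑ h : B, ‖u (x * h) - u x‖ ^ 2) = 0 := by linarith
  have h4 := (mul_eq_zero.1 h3).resolve_left h2.ne'
  have h5 := (sum_eq_zero_iff_of_nonneg fun x _ => sum_nonneg fun (h : B) _ =>
    sq_nonneg ‖u (x * h) - u x‖).1 h4 x (mem_univ _)
  have h6 := (sum_eq_zero_iff_of_nonneg fun (h : B) _ =>
    sq_nonneg ‖u (x * h) - u x‖).1 h5 ⟨k, hk⟩ (mem_univ _)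
  rw [sq_eq_zero_iff, norm_eq_zero] at h6
  exact sub_eq_zero.1 h6

/-- `star2` as a coset sum -/
theorem St_star (b p q : G) (f : G → ℂ) :
    star2 b p q f = sm (Subgroup.zpowers b) (St_d p (fun x => f x - f (x * q))) := by
  classical
  funext x
  rw [sm_apply]
  unfold star2 St_d
  refine sum_congr rfl fun k _ => ?_
  ring

/-- elements of a cyclic group of order `e` -/
theorem St_cyc {a p q : G} (hpq : p * q = a) (m0 : p ∈ Subgroup.zpowers a) :
    ∃ k : ℕ, k < orderOf a ∧ p = a ^ k ∧ q * a ^ k = a := by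
  classical
  obtain ⟨k, hk, hk2⟩ := (mem_zpowers_iff_mem_range_orderOf.1 m0 |> Finset.mem_image.1)
  refine ⟨k, Finset.mem_range.1 hk, hk2.symm, ?_⟩
  have h1 : q = p⁻¹ * a := by rw [← hpq, inv_mul_cancel_left]
  have h3 : a ^ k = p := hk2
  rw [h1, h3]
  have h4 : Commute a p := by
    rw [← h3]
    exact Commute.self_pow a k
  rw [mul_assoc, h4.eq, inv_mul_cancel_left]

theorem St_comm {a p q : G} (m0 : p ∈ Subgroup.zpowers a) (m1 : q ∈ Subgroup.zpowers a) :
    p * q = q * p := by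
  obtain ⟨k, rfl⟩ := Subgroup.mem_zpowers_iff.1 m0
  obtain ⟨l, rfl⟩ := Subgroup.mem_zpowers_iff.1 m1
  rw [← zpow_add, ← zpow_add, add_comm]

theorem St_dd {p q : G} (hc : p * q = q * p) (f : G → ℂ) :
    St_d p (St_d q f) = St_d q (St_d p f) := by
  funext x
  unfold St_d
  rw [mul_assoc x p q, mul_assoc x q p, hc]
  ring

/-- the bounds of `(1 - p) (1 - q)` -/
theorem St_bound {a p q : G} (hpq : p * q = a) (h0 : p ≠ 1) (h1 : q ≠ 1)
    (m0 : p ∈ Subgroup.zpowers a) (m1 : q ∈ Subgroup.zpowers a) :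
    (orderOf a = 3 → p = q ∧ p * p * p = 1) ∧
    (orderOf a = 4 → ∀ f : G → ℂ, St_N (St_d p (St_d q f)) ≤ 8 * St_N f) ∧
    (orderOf a = 6 → ∀ f : G → ℂ, St_N (St_d p (St_d q f)) ≤ 12 * St_N f) := by
  have hc := St_comm m0 m1
  obtain ⟨k, hk, hpk, hqk⟩ := St_cyc hpq m0
  have hq : q = a * (a ^ k)⁻¹ := eq_mul_inv_of_mul_eq hqk
  refine ⟨fun he => ?_, fun he f => ?_, fun he f => ?_⟩
  · have ha : a ^ 3 = 1 := by rw [← he]; exact pow_orderOf_eq_one a
    rw [he] at hk
    have h2 : k = 2 := by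
      interval_cases k
      · exact absurd (by rw [hpk, pow_zero]) h0
      · exact absurd (by rw [hq, pow_one, mul_inv_cancel]) h1
      · rfl
    subst h2
    have h3 : a * (a ^ 2)⁻¹ = a ^ 2 := by
      rw [mul_inv_eq_iff_eq_mul, ← pow_add, show 2 + 2 = 3 + 1 from rfl, pow_succ, ha, one_mul]
    refine ⟨by rw [hpk, hq, h3], ?_⟩
    rw [hpk, ← pow_add, ← pow_add, show 2 + 2 + 2 = 3 * 2 from rfl, pow_mul, ha, one_pow]
  · have ha : a ^ 4 = 1 := by rw [← he]; exact pow_orderOf_eq_one a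
    rw [he] at hk
    -- one of `p, q` has square one, the other one has `c ^ 2` equal to it
    have key : ∀ c d : G, d * d = 1 → c * c = d →
        ∀ f : G → ℂ, St_N (St_d c (St_d d f)) ≤ 8 * St_N f := by
      intro c d hd hcd f
      have h2 := St_two c (St_d d f) (fun x => by
        unfold St_d
        rw [mul_assoc x c c, hcd, mul_assoc x d d, hd, mul_one]
        ring)
      rw [h2]
      have h3 := St_four d f
      linarith
    have h2 : k = 2 ∨ k = 3 := by
      interval_cases k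
      · exact absurd (by rw [hpk, pow_zero]) h0
      · exact absurd (by rw [hq, pow_one, mul_inv_cancel]) h1
      · exact Or.inl rfl
      · exact Or.inr rfl
    rcases h2 with rfl | rfl
    · -- `p = a ^ 2`, `q = a ^ 3`
      have h3 : q = a ^ 3 := by
        rw [hq, mul_inv_eq_iff_eq_mul, ← pow_add, show 3 + 2 = 4 + 1 from rfl, pow_succ, ha, one_mul]
      rw [St_dd hc]
      refine key q p ?_ ?_ f
      · rw [hpk, ← pow_add]; exact ha
      · rw [h3, hpk, ← pow_add, show 3 + 3 = 4 + 2 from rfl, pow_add, ha, one_mul]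
    · have h3 : q = a ^ 2 := by
        rw [hq, mul_inv_eq_iff_eq_mul, ← pow_add, show 2 + 3 = 4 + 1 from rfl, pow_succ, ha, one_mul]
      refine key p q ?_ ?_ f
      · rw [h3, ← pow_add]; exact ha
      · rw [h3, hpk, ← pow_add, show 3 + 3 = 4 + 2 from rfl, pow_add, ha, one_mul]
  · have ha : a ^ 6 = 1 := by rw [← he]; exact pow_orderOf_eq_one a
    rw [he] at hk
    have key : p * p * p = 1 ∨ q * q * q = 1 := by
      have hcub : ∀ j : ℕ, a ^ j * a ^ j * a ^ j = a ^ (3 * j) := by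
        intro j
        rw [← pow_add, ← pow_add]
        congr 1
        ring
      interval_cases k
      · exact absurd (by rw [hpk, pow_zero]) h0
      · exact absurd (by rw [hq, pow_one, mul_inv_cancel]) h1
      · left
        rw [hpk, hcub]
        exact ha
      · right
        have h3 : q = a ^ 4 := by
          rw [hq, mul_inv_eq_iff_eq_mul, ← pow_add, show 4 + 3 = 6 + 1 from rfl, pow_succ, ha,
            one_mul]
        rw [h3, hcub, show 3 * 4 = 6 * 2 from rfl, pow_mul, ha, one_pow]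
      · left
        rw [hpk, hcub, show 3 * 4 = 6 * 2 from rfl, pow_mul, ha, one_pow]
      · right
        have h3 : q = a ^ 2 := by
          rw [hq, mul_inv_eq_iff_eq_mul, ← pow_add, show 2 + 5 = 6 + 1 from rfl, pow_succ, ha,
            one_mul]
        rw [h3, hcub]
        exact ha
    rcases key with h2 | h2
    · have h3 := St_three_le p h2 (St_d q f)
      have h4 := St_four q f
      linarith
    · rw [St_dd hc]
      have h3 := St_three_le q h2 (St_d p f)
      have h4 := St_four p f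
      linarith

theorem star_main (t : Fin 4 → G) (hp : t 0 * t 1 * t 2 * t 3 = 1) (hg : Subgroup.closure (Set.range t) = ⊤)
    (h0 : t 0 ≠ 1) (h1 : t 1 ≠ 1) (m0 : t 0 ∈ Subgroup.zpowers (t 0 * t 1)) (m1 : t 1 ∈ Subgroup.zpowers (t 0 * t 1))
    (Z : ℝ) (hZ : 0 < Z) (hR : HR (ro t) ≠ ⊥)
    (hst : ∀ f ∈ HR (ro t), ∑ x, ‖star2 (t 1 * t 2) (t 0) (t 1) f x‖ ^ 2 =
      Z ^ 2 * (orderOf (t 1 * t 2) : ℝ) ^ 2 * ∑ x, ‖f x‖ ^ 2) :
    (orderOf (t 0 * t 1) = 3 → Z ≤ 3 ∧ (Z = 3 → finrank ℂ (HR (ro t)) ≤ 2)) ∧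
    (orderOf (t 0 * t 1) = 4 → Z ^ 2 ≤ 8) ∧ (orderOf (t 0 * t 1) = 6 → Z ^ 2 ≤ 12) := by
  classical
  obtain ⟨hb3, hb4, hb6⟩ := St_bound (a := t 0 * t 1) rfl h0 h1 m0 m1
  have hB : (0 : ℝ) < Nat.card (Subgroup.zpowers (t 1 * t 2)) := by exact_mod_cast Nat.card_pos
  have hord : (orderOf (t 1 * t 2) : ℝ) = Nat.card (Subgroup.zpowers (t 1 * t 2)) := by
    rw [Nat.card_zpowers]
  -- the norm identity for `star2`
  have hst' : ∀ f ∈ HR (ro t), St_N (sm (Subgroup.zpowers (t 1 * t 2)) (St_d (t 0) (St_d (t 1) f))) =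
      Z ^ 2 * (Nat.card (Subgroup.zpowers (t 1 * t 2)) : ℝ) ^ 2 * St_N f := by
    intro f hf
    have h2 := hst f hf
    rw [hord] at h2
    have h3 : star2 (t 1 * t 2) (t 0) (t 1) f =
        sm (Subgroup.zpowers (t 1 * t 2)) (St_d (t 0) (St_d (t 1) f)) := St_star _ _ _ _
    rw [← h3]
    exact h2
  obtain ⟨f0, hf0, hf0'⟩ := (Submodule.ne_bot_iff _).1 hR
  have hN0 : 0 < St_N f0 := lt_of_le_of_ne (St_N_nonneg f0) fun h => hf0' (St_N_zero h.symm)
  have hgen : ∀ C : ℝ, (∀ f : G → ℂ, St_N (St_d (t 0) (St_d (t 1) f)) ≤ C * St_N f) →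
      Z ^ 2 ≤ C := by
    intro C hC
    have h2 := St_sm_le (Subgroup.zpowers (t 1 * t 2)) (St_d (t 0) (St_d (t 1) f0))
    rw [hst' f0 hf0] at h2
    have h3 := hC f0
    have h4 : (0 : ℝ) < (Nat.card (Subgroup.zpowers (t 1 * t 2)) : ℝ) ^ 2 := by positivity
    have h5 : (Nat.card (Subgroup.zpowers (t 1 * t 2)) : ℝ) ^ 2 * St_N (St_d (t 0) (St_d (t 1) f0)) ≤
        (Nat.card (Subgroup.zpowers (t 1 * t 2)) : ℝ) ^ 2 * (C * St_N f0) :=
      mul_le_mul_of_nonneg_left h3 h4.le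
    have h6 : Z ^ 2 * ((Nat.card (Subgroup.zpowers (t 1 * t 2)) : ℝ) ^ 2 * St_N f0) ≤
        C * ((Nat.card (Subgroup.zpowers (t 1 * t 2)) : ℝ) ^ 2 * St_N f0) := by linarith
    exact le_of_mul_le_mul_right h6 (mul_pos h4 hN0)
  refine ⟨fun he => ?_, fun he => hgen 8 (hb4 he), fun he => hgen 12 (hb6 he)⟩
  obtain ⟨hpq, hp3⟩ := hb3 he
  have hq3 : t 1 * t 1 * t 1 = 1 := by rw [← hpq]; exact hp3
  -- exact formula
  have hex : ∀ f : G → ℂ, St_N (St_d (t 0) (St_d (t 1) f)) =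
      9 * St_N f - St_N (fun x => f x + f (x * t 1) + f (x * t 1 * t 1)) := by
    intro f
    rw [hpq]
    have h2 := St_three (t 1) hq3 f
    have h3 := St_three (t 1) hq3 (St_d (t 1) f)
    have h4 : St_N (fun x => St_d (t 1) f x + St_d (t 1) f (x * t 1) +
        St_d (t 1) f (x * t 1 * t 1)) = 0 := by
      unfold St_N
      refine sum_eq_zero fun x _ => ?_
      have h5 : x * t 1 * t 1 * t 1 = x := by
        rw [mul_assoc, mul_assoc, ← mul_assoc (t 1) (t 1) (t 1), hq3, mul_one]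
      have h6 : St_d (t 1) f x + St_d (t 1) f (x * t 1) + St_d (t 1) f (x * t 1 * t 1) = 0 := by
        unfold St_d
        rw [h5]
        ring
      show ‖St_d (t 1) f x + St_d (t 1) f (x * t 1) + St_d (t 1) f (x * t 1 * t 1)‖ ^ 2 = 0
      rw [h6, norm_zero]
      norm_num
    rw [h4] at h3
    linarith
  have hZ3 : Z ^ 2 ≤ 9 := hgen 9 fun f => by
    rw [hex f]
    have := St_N_nonneg (fun x => f x + f (x * t 1) + f (x * t 1 * t 1))
    linarith
  refine ⟨by nlinarith, fun hZeq => ?_⟩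
  -- equality
  have heq : ∀ f ∈ HR (ro t), (∀ x, f x + f (x * t 1) + f (x * t 1 * t 1) = 0) ∧
      (∀ x, f (x * (t 1 * t 2) * t 1) = f (x * t 1)) ∧ ∀ x, f (x * (t 1 * t 2)) = f x := by
    intro f hf
    have h2 := hst' f hf
    rw [hZeq] at h2
    have h3 := St_sm_le (Subgroup.zpowers (t 1 * t 2)) (St_d (t 0) (St_d (t 1) f))
    have h4 := hex f
    have h5 := St_N_nonneg (fun x => f x + f (x * t 1) + f (x * t 1 * t 1))
    have h6 : (0 : ℝ) < (Nat.card (Subgroup.zpowers (t 1 * t 2)) : ℝ) ^ 2 := by positivity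
    have h7 : St_N (fun x => f x + f (x * t 1) + f (x * t 1 * t 1)) = 0 := by
      rw [h2, h4] at h3
      have h8 : (Nat.card (Subgroup.zpowers (t 1 * t 2)) : ℝ) ^ 2 *
          St_N (fun x => f x + f (x * t 1) + f (x * t 1 * t 1)) ≤ 0 := by linarith
      have h9 := mul_nonneg h6.le h5
      exact (mul_eq_zero.1 (le_antisymm h8 h9)).resolve_left h6.ne'
    have h8 := St_N_zero h7
    have h9 : ∀ x, f x + f (x * t 1) + f (x * t 1 * t 1) = 0 := fun x => congrFun h8 x
    have h10 : St_N (sm (Subgroup.zpowers (t 1 * t 2)) (St_d (t 0) (St_d (t 1) f))) =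
        (Nat.card (Subgroup.zpowers (t 1 * t 2)) : ℝ) ^ 2 * St_N (St_d (t 0) (St_d (t 1) f)) := by
      rw [h2, h4, h7]
      ring
    have h11 := St_sm_eq _ _ h10
    have h12 : ∀ x, St_d (t 0) (St_d (t 1) f) x = -3 * f (x * t 1) := by
      intro x
      rw [hpq]
      unfold St_d
      linear_combination h9 x
    refine ⟨h9, fun x => ?_, fun x => ?_⟩
    · have h13 := h11 x (t 1 * t 2) (Subgroup.mem_zpowers _)
      rw [h12, h12] at h13
      linear_combination (-1 / 3) * h13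
    · exact hf.1 x
  -- injectivity of `f ↦ (f 1, f (t 1))`
  have hinj : ∀ f ∈ HR (ro t), f 1 = 0 → f (t 1) = 0 → f = 0 := by
    intro f hf hf1 hf2
    obtain ⟨e1, e2, e3⟩ := heq f hf
    let K : Subgroup G :=
      { carrier := {g | ∀ x, (f x = 0 ∧ f (x * t 1) = 0) ↔
          (f (x * g) = 0 ∧ f (x * g * t 1) = 0)}
        mul_mem' := by
          intro g k hg hk x
          rw [hg x, hk (x * g), mul_assoc x g k]
        one_mem' := by
          intro x
          rw [mul_one]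
        inv_mem' := by
          intro g hg x
          have h2 := hg (x * g⁻¹)
          rw [inv_mul_cancel_right] at h2
          exact h2.symm }
    have k1 : t 1 ∈ K := by
      intro x
      constructor
      · rintro ⟨a1, a2⟩
        refine ⟨a2, ?_⟩
        have := e1 x
        rw [a1, a2, zero_add, zero_add] at this
        exact this
      · rintro ⟨a1, a2⟩
        refine ⟨?_, a1⟩
        have := e1 x
        rw [a1, a2, add_zero, add_zero] at this
        exact this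
    have kb : t 1 * t 2 ∈ K := by
      intro x
      rw [e3 x, e2 x]
    have k0 : t 0 ∈ K := by
      rw [hpq]
      exact k1
    have k2 : t 2 ∈ K := by
      have h2 := K.mul_mem (K.inv_mem k1) kb
      rwa [inv_mul_cancel_left] at h2
    have k3 : t 3 ∈ K := by
      have h2 : t 3 = (t 0 * t 1 * t 2)⁻¹ := by
        rw [eq_inv_iff_mul_eq_one]
        have h3 : t 0 * t 1 * t 2 = (t 3)⁻¹ := eq_inv_of_mul_eq_one_left hp
        rw [h3, mul_inv_cancel]
      rw [h2]
      exact K.inv_mem (K.mul_mem (K.mul_mem k0 k1) k2)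
    have hK : K = ⊤ := by
      rw [eq_top_iff, ← hg, Subgroup.closure_le]
      rintro g ⟨i, rfl⟩
      fin_cases i
      · exact k0
      · exact k1
      · exact k2
      · exact k3
    funext x
    have hx : x ∈ K := by
      rw [hK]
      exact Subgroup.mem_top x
    have h2 := (hx 1).1 ⟨hf1, by rw [one_mul]; exact hf2⟩
    rw [one_mul] at h2
    exact h2.1
  let Φ : HR (ro t) →ₗ[ℂ] ℂ × ℂ :=
    { toFun := fun f => ((f : G → ℂ) 1, (f : G → ℂ) (t 1))
      map_add' := fun f g => rfl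
      map_smul' := fun c f => rfl }
  have hΦ : Function.Injective Φ := by
    rw [injective_iff_map_eq_zero]
    intro f hf
    have h2 : (f : G → ℂ) 1 = 0 := congrArg Prod.fst hf
    have h3 : (f : G → ℂ) (t 1) = 0 := congrArg Prod.snd hf
    exact Subtype.ext (hinj f f.2 h2 h3)
  have h2 := LinearMap.finrank_le_finrank_of_injective hΦ
  rw [Module.finrank_prod, Module.finrank_self] at h2
  exact h2

/-- the norm bound of the wall operator -/
theorem edge_le (t : Fin 4 → G) (L : ℝ) (hL : 0 < L) (hR : HR t ≠ ⊥)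
    (h : ∀ f ∈ HR t, ∀ x, Pool.Agent.H78.WL.wall (t 0 * t 1) (t 1 * t 2) (t 1) f x =
      ((L ^ 2 * orderOf (t 0 * t 1) * orderOf (t 1 * t 2) : ℝ) : ℂ) * f x) : L ≤ 2 := by
  classical
  obtain ⟨f, hf, hf'⟩ := (Submodule.ne_bot_iff _).1 hR
  have hN0 : 0 < St_N f := lt_of_le_of_ne (St_N_nonneg f) fun h => hf' (St_N_zero h.symm)
  have hA : (0 : ℝ) < Nat.card (Subgroup.zpowers (t 0 * t 1)) := by exact_mod_cast Nat.card_pos
  have hB : (0 : ℝ) < Nat.card (Subgroup.zpowers (t 1 * t 2)) := by exact_mod_cast Nat.card_pos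
  have h1 := wall_form (t 0 * t 1) (t 1 * t 2) (t 1) f (RC_inv' _ _ _ f hf)
  have h2 : (∑ x, wall (t 0 * t 1) (t 1 * t 2) (t 1) f x * star (f x)).re =
      L ^ 2 * Nat.card (Subgroup.zpowers (t 0 * t 1)) *
        Nat.card (Subgroup.zpowers (t 1 * t 2)) * St_N f := by
    have h3 : ∀ x, wall (t 0 * t 1) (t 1 * t 2) (t 1) f x * star (f x) =
        ((L ^ 2 * Nat.card (Subgroup.zpowers (t 0 * t 1)) *
        Nat.card (Subgroup.zpowers (t 1 * t 2)) * ‖f x‖ ^ 2 : ℝ) : ℂ) := by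
      intro x
      rw [h f hf x, mul_assoc, Complex.star_def, Complex.mul_conj, Complex.normSq_eq_norm_sq,
        Nat.card_zpowers, Nat.card_zpowers]
      push_cast
      ring
    unfold St_N
    rw [sum_congr rfl fun x _ => h3 x, ← Complex.ofReal_sum, Complex.ofReal_re, mul_sum]
  have h4 := sm_form (Subgroup.zpowers (t 1 * t 2)) (fun y => f y - f (y * t 1))
  have h5 : (∑ x, wall (t 0 * t 1) (t 1 * t 2) (t 1) f x * star (f x)).re =
      Nat.card (Subgroup.zpowers (t 0 * t 1)) *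
      (∑ x, sm (Subgroup.zpowers (t 1 * t 2)) (fun y => f y - f (y * t 1)) x *
        star (f x - f (x * t 1))).re := by
    rw [h1, ← Complex.ofReal_natCast, Complex.re_ofReal_mul]
  have h6 : ∑ x, ‖f x - f (x * t 1)‖ ^ 2 ≤ 4 * St_N f := St_four (t 1) f
  rw [h2, h4] at h5
  have h10 : (0 : ℝ) ≤ ∑ x, ∑ h : Subgroup.zpowers (t 1 * t 2),
      ‖(f (x * h) - f (x * h * t 1)) - (f x - f (x * t 1))‖ ^ 2 :=
    sum_nonneg fun x _ => sum_nonneg fun h _ => sq_nonneg _
  have h11 : L ^ 2 * (Nat.card (Subgroup.zpowers (t 1 * t 2)) * St_N f) ≤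
      4 * (Nat.card (Subgroup.zpowers (t 1 * t 2)) * St_N f) := by
    have h12 := mul_left_cancel₀ hA.ne'
      (b := L ^ 2 * Nat.card (Subgroup.zpowers (t 1 * t 2)) * St_N f)
      (c := Nat.card (Subgroup.zpowers (t 1 * t 2)) * (∑ x, ‖f x - f (x * t 1)‖ ^ 2) -
        (∑ x, ∑ h : Subgroup.zpowers (t 1 * t 2),
          ‖(f (x * h) - f (x * h * t 1)) - (f x - f (x * t 1))‖ ^ 2) / 2) (by linarith)
    have h13 := mul_le_mul_of_nonneg_left h6 hB.le
    linarith
  have h14 : L ^ 2 ≤ 4 := le_of_mul_le_mul_right h11 (mul_pos hB hN0)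
  nlinarith

end Pool.Agent.H78.UN
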