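import Pool.Agent.H78.UN.Defs

set_option autoImplicit false

/-!
Author: helper82. Project UN (MP_bf82d2_ag, uniformisation), module Tran: what the braid translates inherit.
-/

namespace Pool.Agent.H78.UN

open Finset Module

set_option linter.unusedSectionVars false

variable {G : Type} [Group G]

theorem hs_0 (t : Fin 4 → G) : hs t 0 = t 0 * t 1 * (t 0)⁻¹ := rfl

theorem hs_1 (t : Fin 4 → G) : hs t 1 = t 0 := rfl

theorem hs_2 (t : Fin 4 → G) : hs t 2 = t 2 := rfl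

theorem hs_3 (t : Fin 4 → G) : hs t 3 = t 3 := rfl

theorem ro_0 (t : Fin 4 → G) : ro t 0 = t 1 := rfl

theorem ro_1 (t : Fin 4 → G) : ro t 1 = t 2 := rfl

theorem ro_2 (t : Fin 4 → G) : ro t 2 = t 3 := rfl

theorem ro_3 (t : Fin 4 → G) : ro t 3 = t 0 := rfl

theorem hs_prod {t : Fin 4 → G} (h : t 0 * t 1 * t 2 * t 3 = 1) : hs t 0 * hs t 1 * hs t 2 * hs t 3 = 1 := by
  rw [hs_0, hs_1, hs_2, hs_3, inv_mul_cancel_right, h]

theorem ro_prod {t : Fin 4 → G} (h : t 0 * t 1 * t 2 * t 3 = 1) : ro t 0 * ro t 1 * ro t 2 * ro t 3 = 1 := by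
  rw [ro_0, ro_1, ro_2, ro_3]
  calc t 1 * t 2 * t 3 * t 0 = (t 0)⁻¹ * (t 0 * t 1 * t 2 * t 3) * t 0 := by group
    _ = 1 := by rw [h]; group

theorem tr_prod {s t : Fin 4 → G} (h : Tr s t) (hp : s 0 * s 1 * s 2 * s 3 = 1) : t 0 * t 1 * t 2 * t 3 = 1 := by
  induction h with
  | base => exact hp
  | hs t _ ih => exact hs_prod ih
  | ro t _ ih => exact ro_prod ih

theorem tr_gen {s t : Fin 4 → G} (h : Tr s t) (hg : Subgroup.closure (Set.range s) = ⊤) :
    Subgroup.closure (Set.range t) = ⊤ := by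
  induction h with
  | base => exact hg
  | hs t _ ih =>
    rw [eq_top_iff, ← ih, Subgroup.closure_le]
    rintro _ ⟨i, rfl⟩
    have h0 : t 0 ∈ Subgroup.closure (Set.range (hs t)) := Subgroup.subset_closure ⟨1, rfl⟩
    fin_cases i
    · exact h0
    · have h1 : t 0 * t 1 * (t 0)⁻¹ ∈ Subgroup.closure (Set.range (hs t)) := Subgroup.subset_closure ⟨0, rfl⟩
      have := mul_mem (mul_mem (inv_mem h0) h1) h0
      have h2 : (t 0)⁻¹ * (t 0 * t 1 * (t 0)⁻¹) * t 0 = t 1 := by group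
      rw [h2] at this
      exact this
    · exact Subgroup.subset_closure ⟨2, rfl⟩
    · exact Subgroup.subset_closure ⟨3, rfl⟩
  | ro t _ ih =>
    rw [eq_top_iff, ← ih, Subgroup.closure_le]
    rintro _ ⟨i, rfl⟩
    fin_cases i
    · exact Subgroup.subset_closure ⟨3, rfl⟩
    · exact Subgroup.subset_closure ⟨0, rfl⟩
    · exact Subgroup.subset_closure ⟨1, rfl⟩
    · exact Subgroup.subset_closure ⟨2, rfl⟩

theorem tr_ne {s t : Fin 4 → G} (h : Tr s t) (h1 : ∀ i, s i ≠ 1) : ∀ i, t i ≠ 1 := by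
  induction h with
  | base => exact h1
  | hs t _ ih =>
    intro i
    fin_cases i
    · show t 0 * t 1 * (t 0)⁻¹ ≠ 1
      rw [Ne, conj_eq_one_iff]
      exact ih 1
    · exact ih 0
    · exact ih 2
    · exact ih 3
  | ro t _ ih =>
    intro i
    fin_cases i
    · exact ih 1
    · exact ih 2
    · exact ih 3
    · exact ih 0

theorem conj_center {g x : G} : g * x * g⁻¹ ∈ Subgroup.center G ↔ x ∈ Subgroup.center G := by
  constructor
  · intro h
    have := (Subgroup.center G).normal_of_characteristic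
    have h2 := (inferInstance : (Subgroup.center G).Normal).conj_mem _ h g⁻¹
    have h3 : g⁻¹ * (g * x * g⁻¹) * g⁻¹⁻¹ = x := by group
    rwa [h3] at h2
  · intro h
    exact (inferInstance : (Subgroup.center G).Normal).conj_mem _ h g

theorem tr_center {s t : Fin 4 → G} (h : Tr s t) (h1 : ∀ i, s i ∉ Subgroup.center G) : ∀ i, t i ∉ Subgroup.center G := by
  induction h with
  | base => exact h1
  | hs t _ ih =>
    intro i
    fin_cases i
    · show t 0 * t 1 * (t 0)⁻¹ ∉ Subgroup.center G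
      rw [conj_center]
      exact ih 1
    · exact ih 0
    · exact ih 2
    · exact ih 3
  | ro t _ ih =>
    intro i
    fin_cases i
    · exact ih 1
    · exact ih 2
    · exact ih 3
    · exact ih 0

theorem orderOf_conj' (g x : G) : orderOf (g * x * g⁻¹) = orderOf x := by
  have := orderOf_injective (MulAut.conj g).toMonoidHom (MulAut.conj g).injective x
  simpa using this

theorem tr_sum {s t : Fin 4 → G} (h : Tr s t) (F : ℕ → ℝ) : ∑ i, F (orderOf (t i)) = ∑ i, F (orderOf (s i)) := by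
  induction h with
  | base => rfl
  | hs t _ ih =>
    rw [← ih, Fin.sum_univ_four, Fin.sum_univ_four, hs_0, hs_1, hs_2, hs_3, orderOf_conj']
    ring
  | ro t _ ih =>
    rw [← ih, Fin.sum_univ_four, Fin.sum_univ_four, ro_0, ro_1, ro_2, ro_3]
    ring

theorem tr_ord {s t : Fin 4 → G} (h : Tr s t) (h2 : ∃ i, orderOf (s i) ≠ 2) : ∃ i, orderOf (t i) ≠ 2 := by
  induction h with
  | base => exact h2
  | hs t _ ih =>
    obtain ⟨i, hi⟩ := ih
    fin_cases i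
    · exact ⟨1, hi⟩
    · exact ⟨0, by rw [hs_0, orderOf_conj']; exact hi⟩
    · exact ⟨2, hi⟩
    · exact ⟨3, hi⟩
  | ro t _ ih =>
    obtain ⟨i, hi⟩ := ih
    fin_cases i
    · exact ⟨3, hi⟩
    · exact ⟨0, hi⟩
    · exact ⟨1, hi⟩
    · exact ⟨2, hi⟩

theorem comm_zp {a x y : G} (hx : x ∈ Subgroup.zpowers a) (hy : y ∈ Subgroup.zpowers a) : x * y = y * x := by
  obtain ⟨k, rfl⟩ := Subgroup.mem_zpowers_iff.1 hx
  obtain ⟨l, rfl⟩ := Subgroup.mem_zpowers_iff.1 hy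
  rw [← zpow_add, ← zpow_add, add_comm]

/-- if `x` commutes with generators of `G` then it is central -/
theorem central_of {t : Fin 4 → G} (hg : Subgroup.closure (Set.range t) = ⊤) {x : G}
    (h0 : x * t 0 = t 0 * x) (h1 : x * t 1 = t 1 * x) (h2 : x * t 2 = t 2 * x) (h3 : x * t 3 = t 3 * x) :
    x ∈ Subgroup.center G := by
  rw [Subgroup.mem_center_iff]
  intro g
  have hle : Subgroup.closure (Set.range t) ≤ Subgroup.centralizer {x} := by
    rw [Subgroup.closure_le]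
    rintro _ ⟨i, rfl⟩
    rw [SetLike.mem_coe, Subgroup.mem_centralizer_singleton_iff]
    fin_cases i
    · exact h0.symm
    · exact h1.symm
    · exact h2.symm
    · exact h3.symm
  rw [hg] at hle
  have := hle (Subgroup.mem_top g)
  rw [Subgroup.mem_centralizer_singleton_iff] at this
  exact this

/-- three commutation relations suffice -/
theorem comm4 {a b c d x : G} (h : a * b * c * d = 1) (ha : x * a = a * x) (hb : x * b = b * x)
    (hc : x * c = c * x) : x * d = d * x := by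
  have hd : d = (a * b * c)⁻¹ := by
    rw [eq_inv_iff_mul_eq_one]
    calc d * (a * b * c) = d * (a * b * c * d) * d⁻¹ := by group
      _ = 1 := by rw [h]; group
  have h1 : Commute x (a * b * c) := (((show Commute x a from ha).mul_right hb).mul_right hc)
  rw [hd]
  exact h1.inv_right

/-- no two adjacent collisions are of compact type -/
theorem tree_adj (t : Fin 4 → G) (hp : t 0 * t 1 * t 2 * t 3 = 1) (hg : Subgroup.closure (Set.range t) = ⊤)
    (hc : ∀ i, t i ∉ Subgroup.center G) (h : Tree t) : ¬ Tree (ro t) := by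
  intro h'
  have hp1 : t 1 * t 2 * t 3 * t 0 = 1 := ro_prod hp
  have hp2 : t 2 * t 3 * t 0 * t 1 = 1 := ro_prod (t := ro t) hp1
  have hp3 : t 3 * t 0 * t 1 * t 2 = 1 := ro_prod (t := ro (ro t)) hp2
  rcases h with ⟨h1, h2⟩ | ⟨h1, h2⟩
  · have c01 := comm_zp h1 h2
    rcases h' with ⟨h3, h4⟩ | ⟨h3, h4⟩
    · -- `t 1` commutes with `t 0`, `t 2`
      have c12 : t 1 * t 2 = t 2 * t 1 := comm_zp h3 h4
      exact hc 1 (central_of hg c01.symm rfl c12 (comm4 hp c01.symm rfl c12))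
    · -- `t 0` commutes with `t 1`, `t 3`
      have c30 : t 3 * t 0 = t 0 * t 3 := comm_zp h3 h4
      exact hc 0 (central_of hg rfl c01 (comm4 hp3 c30.symm rfl c01) c30.symm)
  · have c23 := comm_zp h1 h2
    rcases h' with ⟨h3, h4⟩ | ⟨h3, h4⟩
    · -- `t 2` commutes with `t 1`, `t 3`
      have c12 : t 1 * t 2 = t 2 * t 1 := comm_zp h3 h4
      exact hc 2 (central_of hg (comm4 hp1 c12.symm rfl c23) c12.symm rfl c23)
    · -- `t 3` commutes with `t 2`, `t 0`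
      have c30 : t 3 * t 0 = t 0 * t 3 := comm_zp h3 h4
      exact hc 3 (central_of hg c30 (comm4 hp2 c23.symm rfl c30) c23.symm rfl)

theorem conj_mem_zp {g a x : G} : g * x * g⁻¹ ∈ Subgroup.zpowers (g * a * g⁻¹) ↔ x ∈ Subgroup.zpowers a := by
  rw [Subgroup.mem_zpowers_iff, Subgroup.mem_zpowers_iff]
  constructor
  · rintro ⟨k, hk⟩
    rw [conj_zpow] at hk
    exact ⟨k, by simpa using hk⟩
  · rintro ⟨k, hk⟩
    exact ⟨k, by rw [conj_zpow, hk]⟩

/-- `Tree` depends only on the separation `{0, 1} | {2, 3}`, up to conjugation -/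
theorem tree_conj (t : Fin 4 → G) (g : G) : Tree (fun i => g * t i * g⁻¹) ↔ Tree t := by
  unfold Tree
  have h1 : g * t 0 * g⁻¹ * (g * t 1 * g⁻¹) = g * (t 0 * t 1) * g⁻¹ := by group
  simp only [h1, conj_mem_zp]

theorem zp_23 {t : Fin 4 → G} (hp : t 0 * t 1 * t 2 * t 3 = 1) :
    Subgroup.zpowers (t 2 * t 3) = Subgroup.zpowers (t 0 * t 1) := by
  have h : t 2 * t 3 = (t 0 * t 1)⁻¹ := by
    rw [eq_comm, inv_eq_iff_mul_eq_one, ← mul_assoc]
    exact hp
  rw [h, Subgroup.zpowers_inv]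

theorem tree_ro2 (t : Fin 4 → G) (hp : t 0 * t 1 * t 2 * t 3 = 1) : Tree (ro (ro t)) ↔ Tree t := by
  have h : Tree (ro (ro t)) ↔ (t 2 ∈ Subgroup.zpowers (t 2 * t 3) ∧ t 3 ∈ Subgroup.zpowers (t 2 * t 3)) ∨
    (t 0 ∈ Subgroup.zpowers (t 2 * t 3) ∧ t 1 ∈ Subgroup.zpowers (t 2 * t 3)) := Iff.rfl
  rw [h, zp_23 hp, or_comm]
  rfl

theorem tree_hs (t : Fin 4 → G) : Tree (hs t) ↔ Tree t := by
  unfold Tree
  rw [hs_0, hs_1, hs_2, hs_3, inv_mul_cancel_right]
  have h : (t 0 * t 1 * (t 0)⁻¹ ∈ Subgroup.zpowers (t 0 * t 1) ∧ t 0 ∈ Subgroup.zpowers (t 0 * t 1)) ↔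
      (t 0 ∈ Subgroup.zpowers (t 0 * t 1) ∧ t 1 ∈ Subgroup.zpowers (t 0 * t 1)) := by
    constructor
    · rintro ⟨h1, h2⟩
      refine ⟨h2, ?_⟩
      have := mul_mem (mul_mem (inv_mem h2) h1) h2
      have h3 : (t 0)⁻¹ * (t 0 * t 1 * (t 0)⁻¹) * t 0 = t 1 := by group
      rwa [h3] at this
    · rintro ⟨h1, h2⟩
      exact ⟨mul_mem (mul_mem h1 h2) (inv_mem h1), h1⟩
  rw [h]

theorem w_eq (t : Fin 4 → G) : w t = ![t 0, t 2, t 3, t 0 * t 1 * (t 0)⁻¹] := rfl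

theorem w2_eq (t : Fin 4 → G) : w (w t) = ![t 0, t 3, t 0 * t 1 * (t 0)⁻¹, t 0 * t 2 * (t 0)⁻¹] := rfl

/-- `w (w t)` is conjugate to a rotation of `ro t` -/
theorem tree_w2 (t : Fin 4 → G) (hp : t 0 * t 1 * t 2 * t 3 = 1) : Tree (w (w t)) ↔ Tree (ro t) := by
  have h30 : t 0 * t 3 = t 0 * (t 1 * t 2)⁻¹ * (t 0)⁻¹ := by
    have hp1 : t 1 * t 2 * t 3 * t 0 = 1 := ro_prod hp
    have h1 : t 3 * t 0 = (t 1 * t 2)⁻¹ := by
      rw [eq_comm, inv_eq_iff_mul_eq_one, ← mul_assoc]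
      exact hp1
    rw [← h1]
    group
  have hz : Subgroup.zpowers (t 0 * t 3) = Subgroup.zpowers (t 0 * (t 1 * t 2) * (t 0)⁻¹) := by
    rw [h30, ← Subgroup.zpowers_inv]
    congr 1
    group
  have e1 : Tree (w (w t)) ↔
      (t 0 ∈ Subgroup.zpowers (t 0 * t 3) ∧ t 3 ∈ Subgroup.zpowers (t 0 * t 3)) ∨
      (t 0 * t 1 * (t 0)⁻¹ ∈ Subgroup.zpowers (t 0 * t 3) ∧ t 0 * t 2 * (t 0)⁻¹ ∈ Subgroup.zpowers (t 0 * t 3)) :=
    Iff.rfl
  have e2 : Tree (ro t) ↔ (t 1 ∈ Subgroup.zpowers (t 1 * t 2) ∧ t 2 ∈ Subgroup.zpowers (t 1 * t 2)) ∨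
      (t 3 ∈ Subgroup.zpowers (t 1 * t 2) ∧ t 0 ∈ Subgroup.zpowers (t 1 * t 2)) := Iff.rfl
  rw [e1, e2, hz, conj_mem_zp, conj_mem_zp, or_comm]
  refine or_congr Iff.rfl ?_
  have e0 : t 0 ∈ Subgroup.zpowers (t 0 * (t 1 * t 2) * (t 0)⁻¹) ↔ t 0 ∈ Subgroup.zpowers (t 1 * t 2) := by
    have := conj_mem_zp (g := t 0) (a := t 1 * t 2) (x := t 0)
    rwa [mul_inv_cancel_right] at this
  have e3 : t 3 ∈ Subgroup.zpowers (t 0 * (t 1 * t 2) * (t 0)⁻¹) ↔
      (t 0)⁻¹ * t 3 * t 0 ∈ Subgroup.zpowers (t 1 * t 2) := by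
    have := conj_mem_zp (g := t 0) (a := t 1 * t 2) (x := (t 0)⁻¹ * t 3 * t 0)
    have h1 : t 0 * ((t 0)⁻¹ * t 3 * t 0) * (t 0)⁻¹ = t 3 := by group
    rwa [h1] at this
  rw [e0, e3]
  constructor
  · rintro ⟨h1, h2⟩
    refine ⟨?_, h1⟩
    have := mul_mem (mul_mem h1 h2) (inv_mem h1)
    have h3 : t 0 * ((t 0)⁻¹ * t 3 * t 0) * (t 0)⁻¹ = t 3 := by group
    rwa [h3] at this
  · rintro ⟨h1, h2⟩
    exact ⟨h2, mul_mem (mul_mem (inv_mem h2) h1) h2⟩

theorem w3 (t : Fin 4 → G) : w (w (w t)) = fun i => t 0 * t i * (t 0)⁻¹ := by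
  funext i
  fin_cases i
  · show t 0 = t 0 * t 0 * (t 0)⁻¹
    rw [mul_inv_cancel_right]
  · rfl
  · rfl
  · rfl

theorem hs2 (t : Fin 4 → G) (h : Tree t) (_hp : t 0 * t 1 * t 2 * t 3 = 1) :
    ∃ g : G, hs (hs t) = fun i => g * t i * g⁻¹ := by
  have e0 : hs (hs t) 0 = t 0 * t 1 * t 0 * (t 0 * t 1)⁻¹ := by
    show t 0 * t 1 * (t 0)⁻¹ * t 0 * (t 0 * t 1 * (t 0)⁻¹)⁻¹ = _
    group
  have e1 : hs (hs t) 1 = t 0 * t 1 * t 1 * (t 0 * t 1)⁻¹ := by
    show t 0 * t 1 * (t 0)⁻¹ = _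
    group
  have hself : t 0 * t 1 ∈ Subgroup.zpowers (t 0 * t 1) := Subgroup.mem_zpowers _
  have e2 : hs (hs t) 2 = t 2 := rfl
  have e3 : hs (hs t) 3 = t 3 := rfl
  rcases h with ⟨h0, h1⟩ | ⟨h2, h3⟩
  · refine ⟨1, ?_⟩
    have c0 := comm_zp hself h0
    have c1 := comm_zp hself h1
    funext i
    fin_cases i
    · show hs (hs t) 0 = 1 * t 0 * 1⁻¹
      rw [e0, c0, mul_inv_cancel_right, inv_one, mul_one, one_mul]
    · show hs (hs t) 1 = 1 * t 1 * 1⁻¹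
      rw [e1, c1, mul_inv_cancel_right, inv_one, mul_one, one_mul]
    · show hs (hs t) 2 = 1 * t 2 * 1⁻¹
      rw [e2, inv_one, mul_one, one_mul]
    · show hs (hs t) 3 = 1 * t 3 * 1⁻¹
      rw [e3, inv_one, mul_one, one_mul]
  · refine ⟨t 0 * t 1, ?_⟩
    have c2 := comm_zp hself h2
    have c3 := comm_zp hself h3
    funext i
    fin_cases i
    · exact e0
    · exact e1
    · show hs (hs t) 2 = t 0 * t 1 * t 2 * (t 0 * t 1)⁻¹
      rw [e2, c2, mul_inv_cancel_right]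
    · show hs (hs t) 3 = t 0 * t 1 * t 3 * (t 0 * t 1)⁻¹
      rw [e3, c3, mul_inv_cancel_right]

theorem hs_inj : Function.Injective (hs (G := G)) := by
  intro t u h
  have h0 : t 0 = u 0 := congrFun h 1
  have h1 : t 0 * t 1 * (t 0)⁻¹ = u 0 * u 1 * (u 0)⁻¹ := congrFun h 0
  have h2 : t 2 = u 2 := congrFun h 2
  have h3 : t 3 = u 3 := congrFun h 3
  rw [h0, mul_left_inj, mul_right_inj] at h1
  funext i
  fin_cases i
  · exact h0
  · exact h1
  · exact h2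
  · exact h3

theorem ro_inj : Function.Injective (ro (G := G)) := by
  intro t u h
  funext i
  fin_cases i
  · exact congrFun h 3
  · exact congrFun h 0
  · exact congrFun h 1
  · exact congrFun h 2

end Pool.Agent.H78.UN
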