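import Pool.Agent.H78.UN.Defs
import Pool.Agent.H78.UN.Cmb
import Pool.Agent.H78.UN.Tran
import Pool.Agent.H78.UN.Star
import Pool.Agent.H52.WP.Etale

set_option autoImplicit false

/-!
PROJECT UN (MP_bf82d2_ag, uniformisation), module Main.
-/

namespace Pool.Agent.H78.UN

open Finset Module
open Pool.Agent.H52.VC (RC mem_RC)
open Pool.Agent.H52.WP (etale_main)

variable {G : Type} [Group G] [Fintype G]

omit [Fintype G] in
theorem hs_conj (t : Fin 4 → G) (g : G) : hs (fun i => g * t i * g⁻¹) = fun i => g * hs t i * g⁻¹ := by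
  funext i
  fin_cases i <;> simp [hs, mul_assoc]

omit [Fintype G] in
theorem ro_conj (t : Fin 4 → G) (g : G) : ro (fun i => g * t i * g⁻¹) = fun i => g * ro t i * g⁻¹ := by
  funext i
  fin_cases i <;> simp [ro]

omit [Fintype G] in
theorem w_conj (t : Fin 4 → G) (g : G) : w (fun i => g * t i * g⁻¹) = fun i => g * w t i * g⁻¹ := by
  unfold w
  rw [hs_conj, ro_conj]

theorem w_inj : Function.Injective (w (G := G)) := fun _ _ h => hs_inj (ro_inj h)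

variable {s : Fin 4 → G} {lam z : (Fin 4 → G) → ℝ}

/-- the factor of the Noether inequality is not negative -/
theorem fac_nonneg (h1 : ∀ i, s i ≠ 1) : 0 ≤ 1 - ∑ i, 1 / (orderOf (s i) : ℝ) ^ 2 := by
  have h2 : ∀ i : Fin 4, 1 / (orderOf (s i) : ℝ) ^ 2 ≤ 1 / 4 := by
    intro i
    have h3 : 2 ≤ orderOf (s i) := by
      have h4 := orderOf_pos (s i)
      have h5 : orderOf (s i) ≠ 1 := fun h6 => h1 i (orderOf_eq_one_iff.1 h6)
      omega
    have h4 : (2 : ℝ) ≤ orderOf (s i) := by exact_mod_cast h3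
    apply one_div_le_one_div_of_le (by norm_num)
    nlinarith
  have h3 : ∑ i : Fin 4, 1 / (orderOf (s i) : ℝ) ^ 2 ≤ ∑ _i : Fin 4, (1 / 4 : ℝ) := sum_le_sum fun i _ => h2 i
  have h4 : ∑ _i : Fin 4, (1 / 4 : ℝ) = 1 := by
    rw [sum_const, card_univ, Fintype.card_fin]
    norm_num
  rw [h4] at h3
  linarith

theorem HR_ne (h1 : ∀ i, s i ≠ 1) (hS : Shim s lam z) (t : Fin 4 → G) (ht : Tr s t) (hn : ¬ Tree t) : HR t ≠ ⊥ := by
  intro h0
  have h2 := hS.noether t ht hn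
  rw [h0, finrank_bot] at h2
  have h3 := fac_nonneg h1
  have h4 : (0 : ℝ) ≤ Nat.card G := Nat.cast_nonneg _
  have h5 := mul_nonneg h4 h3
  norm_num at h2
  norm_num at h5
  linarith

theorem zb1 (hp : s 0 * s 1 * s 2 * s 3 = 1) (hg : Subgroup.closure (Set.range s) = ⊤)
    (hadj : ∀ t, Tr s t → Tree t → ¬ Tree (ro t)) (h1 : ∀ i, s i ≠ 1) (hS : Shim s lam z) (t : Fin 4 → G) (ht : Tr s t)
    (m0 : t 0 ∈ Subgroup.zpowers (t 0 * t 1)) (m1 : t 1 ∈ Subgroup.zpowers (t 0 * t 1)) :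
    (orderOf (t 0 * t 1) = 3 → z t ≤ 3 ∧ (z t = 3 → ∃ u v, Tr s u ∧ Tr s v ∧ ¬ Tree v ∧ finrank ℂ (HR v) ≤ 2 ∧
      orderOf (u 0) = 3 ∧ orderOf (u 1) = 3)) ∧
    (orderOf (t 0 * t 1) = 4 → z t ^ 2 ≤ 8) ∧ (orderOf (t 0 * t 1) = 6 → z t ^ 2 ≤ 12) := by
  have htree : Tree t := Or.inl ⟨m0, m1⟩
  have hn : ¬ Tree (ro t) := hadj t ht htree
  have hR := HR_ne h1 hS (ro t) (Tr.ro t ht) hn
  obtain ⟨a1, a2, a3⟩ := star_main t (tr_prod ht hp) (tr_gen ht hg) (tr_ne ht h1 0) (tr_ne ht h1 1) m0 m1 (z t)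
    (hS.z_pos t ht) hR (hS.star t ht hn m0 m1)
  refine ⟨fun h3 => ⟨(a1 h3).1, fun h4 => ⟨t, ro t, ht, Tr.ro t ht, hn, (a1 h3).2 h4, ?_, ?_⟩⟩, a2, a3⟩
  · have h5 := orderOf_dvd_of_mem_zpowers m0
    rw [h3] at h5
    have h6 : orderOf (t 0) ≠ 1 := fun h7 => tr_ne ht h1 0 (orderOf_eq_one_iff.1 h7)
    exact ((Nat.dvd_prime Nat.prime_three).1 h5).resolve_left h6
  · have h5 := orderOf_dvd_of_mem_zpowers m1
    rw [h3] at h5
    have h6 : orderOf (t 1) ≠ 1 := fun h7 => tr_ne ht h1 1 (orderOf_eq_one_iff.1 h7)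
    exact ((Nat.dvd_prime Nat.prime_three).1 h5).resolve_left h6

theorem zb (hp : s 0 * s 1 * s 2 * s 3 = 1) (hg : Subgroup.closure (Set.range s) = ⊤)
    (hadj : ∀ t, Tr s t → Tree t → ¬ Tree (ro t)) (h1 : ∀ i, s i ≠ 1) (hS : Shim s lam z) (t : Fin 4 → G) (ht : Tr s t)
    (htree : Tree t) :
    (orderOf (t 0 * t 1) = 3 → z t ≤ 3 ∧ (z t = 3 → ∃ u v, Tr s u ∧ Tr s v ∧ ¬ Tree v ∧ finrank ℂ (HR v) ≤ 2 ∧
      orderOf (u 0) = 3 ∧ orderOf (u 1) = 3)) ∧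
    (orderOf (t 0 * t 1) = 4 → z t ^ 2 ≤ 8) ∧ (orderOf (t 0 * t 1) = 6 → z t ^ 2 ≤ 12) := by
  rcases htree with ⟨m0, m1⟩ | ⟨m2, m3⟩
  · exact zb1 hp hg hadj h1 hS t ht m0 m1
  · have hinv : t 2 * t 3 = (t 0 * t 1)⁻¹ := by
      have h2 := tr_prod ht hp
      rw [eq_inv_iff_mul_eq_one]
      have h3 : t 2 * t 3 = (t 0 * t 1)⁻¹ := by
        rw [mul_assoc] at h2
        exact eq_inv_of_mul_eq_one_right h2
      rw [h3, inv_mul_cancel]
    have hz : Subgroup.zpowers (t 2 * t 3) = Subgroup.zpowers (t 0 * t 1) := by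
      rw [hinv]
      exact Subgroup.zpowers_inv
    have ho : orderOf (t 2 * t 3) = orderOf (t 0 * t 1) := by
      rw [hinv]
      exact orderOf_inv _
    have h2 := zb1 hp hg hadj h1 hS (ro (ro t)) (Tr.ro _ (Tr.ro _ ht)) (by
      show t 2 ∈ Subgroup.zpowers (t 2 * t 3)
      rw [hz]; exact m2) (by
      show t 3 ∈ Subgroup.zpowers (t 2 * t 3)
      rw [hz]; exact m3)
    rw [hS.z_ro t ht] at h2
    have h3 : orderOf (ro (ro t) 0 * ro (ro t) 1) = orderOf (t 0 * t 1) := ho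
    rw [h3] at h2
    exact h2

/-- The case without adjacent trees. -/
theorem un_free (hp : s 0 * s 1 * s 2 * s 3 = 1) (hg : Subgroup.closure (Set.range s) = ⊤)
    (hadj : ∀ t, Tr s t → Tree t → ¬ Tree (ro t)) (h1 : ∀ i, s i ≠ 1) (h2 : ∃ i, orderOf (s i) ≠ 2)
    (hS : Shim s lam z) : Nat.card G ≤ 43 := by
  classical
  set T : Finset (Fin 4 → G) := univ.filter (fun t => Tr s t) with hT
  set F : Finset (Fin 4 → G) := univ.filter (fun t => Tr s t ∧ Tree t) with hF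
  have mT : ∀ t, t ∈ T ↔ Tr s t := fun t => by rw [hT, mem_filter]; simp
  have mF : ∀ t, t ∈ F ↔ Tr s t ∧ Tree t := fun t => by rw [hF, mem_filter]; simp
  have hFT : F ⊆ T := fun t ht => (mT t).2 ((mF t).1 ht).1
  have wT : ∀ t ∈ T, w t ∈ T := fun t ht => (mT _).2 (Tr.ro _ (Tr.hs _ ((mT t).1 ht)))
  have nF : ∀ t, Tr s t → (t ∉ F ↔ ¬ Tree t) := fun t ht => by
    rw [mF]
    exact ⟨fun h3 h4 => h3 ⟨ht, h4⟩, fun h3 h4 => h3 h4.2⟩
  have hstar : ∀ t ∈ F, 2 ≤ z t / (lam (w (w t)) * lam (w (w (hs t)))) + z (hs t) / (lam (w (w t)) *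
      lam (w (w (hs t)))) ∧ (z t / (lam (w (w t)) * lam (w (w (hs t)))) + z (hs t) / (lam (w (w t)) *
      lam (w (w (hs t)))) = 2 → orderOf (t 0 * t 1) = 3 ∧ z t = 3 ∧ z (hs t) = 3) := by
    intro t ht
    obtain ⟨ht1, ht2⟩ := (mF t).1 ht
    have ht3 : Tr s (hs t) := Tr.hs _ ht1
    have ht4 : Tree (hs t) := (tree_hs t).2 ht2
    have b1 := zb hp hg hadj h1 hS t ht1 ht2
    have b2 := zb hp hg hadj h1 hS (hs t) ht3 ht4
    have b3 : hs t 0 * hs t 1 = t 0 * t 1 := by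
      show t 0 * t 1 * (t 0)⁻¹ * t 0 = t 0 * t 1
      rw [inv_mul_cancel_right]
    rw [b3] at b2
    have w1 : ∀ u, Tr s u → Tr s (w u) := fun u hu => Tr.ro _ (Tr.hs _ hu)
    exact star_ari (orderOf (t 0 * t 1)) (hS.elliptic t ht1 ht2) _ _ (z t) (z (hs t))
      (hS.lam_pos _ (w1 _ (w1 _ ht1))) (hS.lam_pos _ (w1 _ (w1 _ ht3))) (hS.z_pos t ht1) (hS.z_pos _ ht3)
      (fun h3 => ⟨(b1.1 h3).1, (b2.1 h3).1⟩) (fun h4 => ⟨b1.2.1 h4, b2.2.1 h4⟩) (fun h6 => ⟨b1.2.2 h6, b2.2.2 h6⟩)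
      (hS.diag t ht1 ht2 (hadj t ht1 ht2) (hadj _ ht3 ht4))
  have key := cmb T F hFT w hs w_inj hs_inj wT
    (fun t ht => (mF _).2 ⟨Tr.hs _ ((mF t).1 ht).1, (tree_hs t).2 ((mF t).1 ht).2⟩) lam z
    (fun t ht => hS.lam_pos t ((mT t).1 ht))
    (fun t ht => by rw [w3]; exact hS.lam_conj t (t 0) ((mT t).1 ht))
    (fun t ht => by
      have h3 : Tr s (w (w (w t))) := (mT _).1 (wT _ (wT _ (wT _ ht)))
      rw [mF, mF]
      have h4 : Tree (w (w (w t))) ↔ Tree t := by rw [w3]; exact tree_conj t (t 0)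
      exact ⟨fun h5 => ⟨(mT t).1 ht, h4.1 h5.2⟩, fun h5 => ⟨h3, h4.2 h5.2⟩⟩)
    (fun t ht h3 => by
      obtain ⟨ht1, ht2⟩ := (mF t).1 ht
      have ht3 : Tr s (hs t) := Tr.hs _ ht1
      exact hadj (hs t) ht3 ((tree_hs t).2 ht2) ((mF _).1 h3).2)
    (fun t ht h3 => by
      obtain ⟨ht1, ht2⟩ := (mF t).1 ht
      exact hadj t ht1 ht2 ((tree_w2 t (tr_prod ht1 hp)).1 ((mF _).1 h3).2))
    (fun t ht => by
      obtain ⟨ht1, ht2⟩ := (mF t).1 ht
      obtain ⟨g, hg2⟩ := hs2 t ht2 (tr_prod ht1 hp)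
      rw [hg2, w_conj, w_conj]
      exact hS.lam_conj _ g (Tr.ro _ (Tr.hs _ (Tr.ro _ (Tr.hs _ ht1)))))
    (fun t ht n1 n2 n3 => by
      have ht1 := (mT t).1 ht
      have ht2 : Tr s (w (w t)) := (mT _).1 (wT _ (wT _ ht))
      have m1 : ¬ Tree t := (nF t ht1).1 n1
      have m3 : ¬ Tree (ro t) := fun h3 => (nF _ ht2).1 n3 ((tree_w2 t (tr_prod ht1 hp)).2 h3)
      exact edge_le t (lam t) (hS.lam_pos t ht1) (HR_ne h1 hS t ht1 m1) (hS.edge t ht1 m1 m3))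
    (fun t ht => (hstar t ht).1)
    (by
      have e1 : T.filter (fun t => t ∉ F ∧ w t ∉ F ∧ w (w t) ∉ F) =
          univ.filter (fun t => Tr s t ∧ ¬ Tree t ∧ ¬ Tree (w t) ∧ ¬ Tree (w (w t))) := by
        ext t
        constructor
        · intro h0
          obtain ⟨h3', h4, h5, h6⟩ := mem_filter.1 h0
          have h3 := (mT t).1 h3'
          refine mem_filter.2 ?_
          have h7 : Tr s (w t) := Tr.ro _ (Tr.hs _ h3)
          have h8 : Tr s (w (w t)) := Tr.ro _ (Tr.hs _ h7)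
          exact ⟨mem_univ _, h3, (nF _ h3).1 h4, (nF _ h7).1 h5, (nF _ h8).1 h6⟩
        · intro h0
          obtain ⟨-, h3, h4, h5, h6⟩ := mem_filter.1 h0
          have h7 : Tr s (w t) := Tr.ro _ (Tr.hs _ h3)
          have h8 : Tr s (w (w t)) := Tr.ro _ (Tr.hs _ h7)
          exact mem_filter.2 ⟨(mT t).2 h3, (nF _ h3).2 h4, (nF _ h7).2 h5, (nF _ h8).2 h6⟩
      have e2 : (Nat.card {t // Tr s t ∧ ¬ Tree t} : ℝ) = ((T \ F).card : ℝ) := by
        congr 1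
        rw [Nat.card_eq_fintype_card, Fintype.card_subtype]
        congr 1
        ext t
        rw [mem_filter, mem_sdiff, mT]
        constructor
        · rintro ⟨-, h3, h4⟩
          exact ⟨h3, (nF _ h3).2 h4⟩
        · rintro ⟨h3, h4⟩
          exact ⟨mem_univ _, h3, (nF _ h3).1 h4⟩
      have h3 := hS.horo hadj
      rw [e2] at h3
      rw [e1]
      convert h3 using 3)
  obtain ⟨k1, k2⟩ := key
  have hmin : ∀ t, Tr s t → ∀ i, 2 ≤ orderOf (t i) := by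
    intro t ht i
    have h4 := orderOf_pos (t i)
    have h5 : orderOf (t i) ≠ 1 := fun h6 => tr_ne ht h1 i (orderOf_eq_one_iff.1 h6)
    omega
  by_cases hE : ∃ t, t ∈ F
  · obtain ⟨t, ht⟩ := hE
    obtain ⟨ht1, ht2⟩ := (mF t).1 ht
    obtain ⟨e3, z3, -⟩ := (hstar t ht).2 (k2 t ht)
    obtain ⟨u, v, hu, hv, hvn, hr, o0, o1⟩ := ((zb hp hg hadj h1 hS t ht1 ht2).1 e3).2 z3
    have h4 := hS.noether v hv hvn
    have h5 : (finrank ℂ (HR v) : ℝ) ≤ 2 := by exact_mod_cast hr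
    have h6 : ∑ i, 1 / (orderOf (s i) : ℝ) ^ 2 = ∑ i, 1 / (orderOf (u i) : ℝ) ^ 2 :=
      (tr_sum hu (fun m => 1 / (m : ℝ) ^ 2)).symm
    rw [h6] at h4
    exact noether2 (Nat.card G) (fun i => orderOf (u i)) (hmin u hu) o0 o1 (by linarith)
  · push Not at hE
    have h3 : ∀ t, Tr s t → ¬ Tree t := fun t ht => (nF t ht).1 (hE t)
    have hw1 : Tr s (w s) := Tr.ro _ (Tr.hs _ Tr.base)
    have h4 := k1 s ((mT s).2 Tr.base) (hE _) (hE _) (hE _)
    have h5 := hS.edge s Tr.base (h3 s Tr.base) (h3 _ (Tr.ro _ Tr.base))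
    have h6 : finrank ℂ (HR s) ≤ 1 := by
      refine (etale_main (s 0) (s 1) (s 2) (s 3) hp ?_ (Subgroup.closure {s 0, s 1})
        (Subgroup.closure {s 2, s 3}) ?_).2
      · rw [← hg]
        congr 1
        ext x
        simp only [Set.mem_insert_iff, Set.mem_singleton_iff, Set.mem_range]
        constructor
        · rintro (rfl | rfl | rfl | rfl)
          · exact ⟨0, rfl⟩
          · exact ⟨1, rfl⟩
          · exact ⟨2, rfl⟩
          · exact ⟨3, rfl⟩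
        · rintro ⟨i, rfl⟩
          fin_cases i
          · exact Or.inl rfl
          · exact Or.inr (Or.inl rfl)
          · exact Or.inr (Or.inr (Or.inl rfl))
          · exact Or.inr (Or.inr (Or.inr rfl))
      · intro f hf x
        have h7 := h5 f hf x
        rw [h4] at h7
        rw [h7]
        push_cast
        ring
    have h7 := hS.noether s Tr.base (h3 s Tr.base)
    have h8 : (finrank ℂ (HR s) : ℝ) ≤ 1 := by exact_mod_cast h6
    exact noether1 (Nat.card G) (fun i => orderOf (s i)) (hmin s Tr.base) h2 (by linarith)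

/-- No `s i` in the centre. -/
theorem un_main (hp : s 0 * s 1 * s 2 * s 3 = 1) (hg : Subgroup.closure (Set.range s) = ⊤)
    (hc : ∀ i, s i ∉ Subgroup.center G) (h2 : ∃ i, orderOf (s i) ≠ 2) (hS : Shim s lam z) : Nat.card G ≤ 43 :=
  un_free hp hg (fun t ht h3 => tree_adj t (tr_prod ht hp) (tr_gen ht hg) (tr_center ht hc) h3)
    (fun i h3 => hc i (by rw [h3]; exact (Subgroup.center G).one_mem)) h2 hS

end Pool.Agent.H78.UN
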