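import Pool.Agent.H78.UN.Tran

set_option autoImplicit false

/-!
Author: helper82. Project UN (MP_bf82d2_ag, uniformisation), module Trd: triangles with three collisions of
compact type.
-/

namespace Pool.Agent.H78.UN

open Finset Module
open Pool.Agent.H52.VC (RC)

set_option linter.unusedSectionVars false

variable {G : Type} [Group G]

theorem ro_conj (t : Fin 4 → G) (g : G) : ro (fun i => g * t i * g⁻¹) = fun i => g * ro t i * g⁻¹ := by
  funext i
  fin_cases i <;> rfl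

theorem tree_w3 (t : Fin 4 → G) : Tree (w (w (w t))) ↔ Tree t := by
  rw [w3]
  exact tree_conj t (t 0)

theorem w_prod {t : Fin 4 → G} (h : t 0 * t 1 * t 2 * t 3 = 1) : w t 0 * w t 1 * w t 2 * w t 3 = 1 :=
  ro_prod (t := hs t) (hs_prod h)

/-- all three vertices of the triangle are trees -/
def AllTree (t : Fin 4 → G) : Prop := Tree t ∧ Tree (ro t) ∧ Tree (w t)

theorem allTree_hs {t : Fin 4 → G} (hp : t 0 * t 1 * t 2 * t 3 = 1) : AllTree (hs t) ↔ AllTree t := by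
  have e1 : Tree (w (hs t)) ↔ Tree (ro (hs (hs t))) := Iff.rfl
  have e2 : Tree (ro (hs t)) ↔ Tree (w t) := Iff.rfl
  have e3 : Tree t → (Tree (ro (hs (hs t))) ↔ Tree (ro t)) := by
    intro h
    obtain ⟨g, hg⟩ := hs2 t h hp
    rw [hg, ro_conj]
    exact tree_conj (ro t) g
  unfold AllTree
  rw [tree_hs, e1, e2]
  constructor
  · rintro ⟨h1, h2, h3⟩
    exact ⟨h1, (e3 h1).1 h3, h2⟩
  · rintro ⟨h1, h2, h3⟩
    exact ⟨h1, h3, (e3 h1).2 h2⟩

theorem allTree_w {t : Fin 4 → G} (hp : t 0 * t 1 * t 2 * t 3 = 1) : AllTree (w t) ↔ AllTree t := by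
  have e1 : Tree (ro (w t)) ↔ Tree t := by
    rw [← tree_w2 (w t) (w_prod hp), tree_w3]
  have e2 : Tree (w (w t)) ↔ Tree (ro t) := tree_w2 t hp
  unfold AllTree
  rw [e1, e2]
  tauto

/-- the inverse of `hs` -/
theorem hs_surj (t : Fin 4 → G) : ∃ v, hs v = t := by
  refine ⟨![t 1, (t 1)⁻¹ * t 0 * t 1, t 2, t 3], ?_⟩
  funext i
  fin_cases i
  · show t 1 * ((t 1)⁻¹ * t 0 * t 1) * (t 1)⁻¹ = t 0
    group
  · rfl
  · rfl
  · rfl

theorem allTree_ro {t : Fin 4 → G} (hp : t 0 * t 1 * t 2 * t 3 = 1) : AllTree (ro t) ↔ AllTree t := by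
  obtain ⟨v, rfl⟩ := hs_surj t
  have hv : v 0 * v 1 * v 2 * v 3 = 1 := by
    rw [hs_0, hs_1, hs_2, hs_3, inv_mul_cancel_right] at hp
    exact hp
  rw [allTree_hs hv]
  exact allTree_w hv

theorem allTree_tr {s t : Fin 4 → G} (hp : s 0 * s 1 * s 2 * s 3 = 1) (ht : Tr s t) : AllTree t ↔ AllTree s := by
  induction ht with
  | base => exact Iff.rfl
  | hs t ht ih => rw [allTree_hs (tr_prod ht hp), ih]
  | ro t ht ih => rw [allTree_ro (tr_prod ht hp), ih]

/-- if some collision is not a tree then the third vertex over an edge between two trees is not a tree -/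
theorem tree_third {s t : Fin 4 → G} (hp : s 0 * s 1 * s 2 * s 3 = 1) (h : ∃ u, Tr s u ∧ ¬ Tree u)
    (ht : Tr s t) (h1 : Tree t) (h2 : Tree (ro t)) : ¬ Tree (w t) := by
  intro h3
  obtain ⟨u, hu, hu'⟩ := h
  have h4 : AllTree s := (allTree_tr hp ht).1 ⟨h1, h2, h3⟩
  exact hu' ((allTree_tr hp hu).2 h4).1

/-- with `t 1` central, the vertices on both sides of the edge have the same vanishing cycles -/
theorem HR_eq [Fintype G] (t : Fin 4 → G) (hp : t 0 * t 1 * t 2 * t 3 = 1) (hc : t 1 ∈ Subgroup.center G) :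
    HR (ro (hs (ro t))) = HR (ro (hs t)) := by
  have hz : ∀ g : G, g * t 1 = t 1 * g := fun g => Subgroup.mem_center_iff.1 hc g
  have e2 : t 1 * t 3 = (t 0 * t 2)⁻¹ := by
    rw [eq_comm, inv_eq_iff_mul_eq_one, ← hp, ← mul_assoc, mul_assoc (t 0) (t 2) (t 1), hz (t 2), ← mul_assoc]
  have e3 : t 1 * t 2 * (t 1)⁻¹ = t 2 := by rw [← hz (t 2), mul_inv_cancel_right]
  have e4 : t 0 * t 1 * (t 0)⁻¹ = t 1 := by rw [hz (t 0), mul_inv_cancel_right]
  have a1 : HR (ro (hs (ro t))) = RC (t 1 * t 3) (Subgroup.closure {t 1, t 3})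
      (Subgroup.closure {t 0, t 1 * t 2 * (t 1)⁻¹}) := rfl
  have a2 : HR (ro (hs t)) = RC (t 0 * t 2) (Subgroup.closure {t 0, t 2})
      (Subgroup.closure {t 3, t 0 * t 1 * (t 0)⁻¹}) := rfl
  rw [a1, a2, e3, e4, e2, Set.pair_comm (t 1) (t 3)]
  ext f
  have key : (∀ x, f (x * (t 0 * t 2)⁻¹) = f x) ↔ ∀ x, f (x * (t 0 * t 2)) = f x := by
    constructor
    · intro h x
      have := h (x * (t 0 * t 2))
      rw [mul_inv_cancel_right] at this
      exact this.symm
    · intro h x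
      have := h (x * (t 0 * t 2)⁻¹)
      rw [inv_mul_cancel_right] at this
      exact this.symm
  rw [Pool.Agent.H52.VC.mem_RC, Pool.Agent.H52.VC.mem_RC, key]
  tauto

end Pool.Agent.H78.UN
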