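import Pool.Agent.H78.UN.Main
import Pool.Agent.H78.UN.Adj
import Pool.Agent.H78.UN.Trd
import Pool.Agent.H78.UN.Ari2

set_option autoImplicit false

/-!
PROJECT UN (MP_bf82d2_ag, uniformisation), module MainB: adjacent trees.
-/

namespace Pool.Agent.H78.UN

open Finset Module

variable {G : Type} [Group G] [Fintype G] {s : Fin 4 → G} {lam z : (Fin 4 → G) → ℝ}

omit [Fintype G] in
theorem zp23 {t : Fin 4 → G} (hp : t 0 * t 1 * t 2 * t 3 = 1) :
    Subgroup.zpowers (t 2 * t 3) = Subgroup.zpowers (t 0 * t 1) := by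
  have h3 : t 2 * t 3 = (t 0 * t 1)⁻¹ := by
    rw [mul_assoc] at hp
    exact eq_inv_of_mul_eq_one_right hp
  rw [h3]
  exact Subgroup.zpowers_inv

/-- the four strands commute with `t 1` -/
theorem cen1 {t : Fin 4 → G} (hp : t 0 * t 1 * t 2 * t 3 = 1) (hg : Subgroup.closure (Set.range t) = ⊤)
    (m0 : t 0 ∈ Subgroup.zpowers (t 0 * t 1)) (m1 : t 1 ∈ Subgroup.zpowers (t 0 * t 1))
    (m1' : t 1 ∈ Subgroup.zpowers (t 1 * t 2)) (m2 : t 2 ∈ Subgroup.zpowers (t 1 * t 2)) :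
    t 1 ∈ Subgroup.center G := by
  have com : ∀ {g x y : G}, x ∈ Subgroup.zpowers g → y ∈ Subgroup.zpowers g → x * y = y * x := by
    intro g x y hx hy
    obtain ⟨i, rfl⟩ := Subgroup.mem_zpowers_iff.1 hx
    obtain ⟨j, rfl⟩ := Subgroup.mem_zpowers_iff.1 hy
    rw [← zpow_add, ← zpow_add, add_comm]
  have c0 : t 0 * t 1 = t 1 * t 0 := com m0 m1
  have c2 : t 2 * t 1 = t 1 * t 2 := com m2 m1'
  have c3 : t 3 * t 1 = t 1 * t 3 := by
    have h3 : t 3 = (t 0 * t 1 * t 2)⁻¹ := eq_inv_of_mul_eq_one_right hp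
    have h4 : Commute (t 0 * t 1 * t 2) (t 1) := by
      have k0 : Commute (t 0) (t 1) := c0
      have k2 : Commute (t 2) (t 1) := c2
      exact (k0.mul_left (Commute.refl _)).mul_left k2
    rw [h3]
    exact (h4.inv_left).eq
  have h5 : (⊤ : Subgroup G) ≤ Subgroup.centralizer {t 1} := by
    rw [← hg, Subgroup.closure_le]
    rintro _ ⟨i, rfl⟩
    rw [SetLike.mem_coe, Subgroup.mem_centralizer_iff]
    intro x hx
    rw [Set.mem_singleton_iff] at hx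
    subst hx
    fin_cases i
    · exact c0.symm
    · rfl
    · exact c2.symm
    · exact c3.symm
  rw [Subgroup.mem_center_iff]
  intro g
  have h6 := h5 (Subgroup.mem_top g)
  rw [Subgroup.mem_centralizer_iff] at h6
  exact (h6 (t 1) rfl).symm

/-- adjacent trees on the two sides of the strand `t 1` -/
theorem un_adj1 (hp : s 0 * s 1 * s 2 * s 3 = 1) (hg : Subgroup.closure (Set.range s) = ⊤)
    (hnc : ∃ x y : G, x * y ≠ y * x) (hnt : ∃ u, Tr s u ∧ ¬ Tree u) (h1 : ∀ i, s i ≠ 1)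
    (h2 : ∃ i, orderOf (s i) ≠ 2) (hS : Shim s lam z) (t : Fin 4 → G) (ht : Tr s t)
    (m0 : t 0 ∈ Subgroup.zpowers (t 0 * t 1)) (m1 : t 1 ∈ Subgroup.zpowers (t 0 * t 1))
    (m1' : t 1 ∈ Subgroup.zpowers (t 1 * t 2)) (m2 : t 2 ∈ Subgroup.zpowers (t 1 * t 2)) : Nat.card G ≤ 86 := by
  have hpt := tr_prod ht hp
  have hgt := tr_gen ht hg
  have hcen := cen1 hpt hgt m0 m1 m1' m2
  have t1 : Tree t := Or.inl ⟨m0, m1⟩
  have t2 : Tree (ro t) := Or.inl ⟨m1', m2⟩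
  have hw : ¬ Tree (ro (hs t)) := tree_third hp hnt ht t1 t2
  have hcomm : ∀ g, g * t 1 = t 1 * g := fun g => Subgroup.mem_center_iff.1 hcen g
  -- the tuple `hs t`
  have e0 : hs t 0 = t 1 := by
    show t 0 * t 1 * (t 0)⁻¹ = t 1
    rw [hcomm (t 0), mul_inv_cancel_right]
  have e1 : hs t 1 = t 0 := rfl
  have e2 : hs t 2 = t 2 := rfl
  have a1 : hs t 0 * hs t 1 = t 0 * t 1 := by rw [e0, e1, hcomm]
  have k1 := hS.star (hs t) (Tr.hs _ ht) hw (by rw [a1, e0]; exact m1) (by rw [a1, e1]; exact m0)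
  -- the tuple `hs (ro t)`
  have f0 : hs (ro t) 0 = t 2 := by
    show t 1 * t 2 * (t 1)⁻¹ = t 2
    rw [← hcomm (t 2), mul_inv_cancel_right]
  have f1 : hs (ro t) 1 = t 1 := rfl
  have f2 : hs (ro t) 2 = t 3 := rfl
  have b1 : hs (ro t) 0 * hs (ro t) 1 = t 1 * t 2 := by rw [f0, f1, hcomm]
  have hcr : HR (ro (hs (ro t))) = HR (ro (hs t)) := HR_eq t hpt hcen
  have htr : Tr s (ro t) := Tr.ro _ ht
  have hw2 : ¬ Tree (ro (hs (ro t))) := tree_third hp hnt htr t2 (by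
    rw [tree_ro2 t hpt]
    exact t1)
  have k2 := hS.star (hs (ro t)) (Tr.hs _ htr) hw2 (by rw [b1, f0]; exact m2) (by rw [b1, f1]; exact m1')
  obtain ⟨z1, z2⟩ := hS.adj t ht t1 t2
  have hR := HR_ne h1 hS (ro (hs t)) (Tr.ro _ (Tr.hs _ ht)) hw
  have hr := adj_main t hpt hgt hnc (tr_ne ht h1) m0 m1 m1' m2 (hS.elliptic t ht t1) (hS.elliptic (ro t) htr t2)
    (z (hs t)) z1 hR (by
      intro f hf
      have h3 := k1 f hf
      rw [e0, e1, e2] at h3
      exact h3) (by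
      intro f hf
      have h3 := k2 f (by rw [hcr]; exact hf)
      rw [f0, f1, f2, z2, ← z1] at h3
      exact h3)
  have h4 := hS.noether (ro (hs t)) (Tr.ro _ (Tr.hs _ ht)) hw
  have h5 : (finrank ℂ (HR (ro (hs t))) : ℝ) ≤ 2 := by exact_mod_cast hr
  refine noether3 (Nat.card G) (fun i => orderOf (s i)) (fun i => ?_) h2 (by linarith)
  have h6 := orderOf_pos (s i)
  have h7 : orderOf (s i) ≠ 1 := fun h8 => h1 i (orderOf_eq_one_iff.1 h8)
  show 2 ≤ orderOf (s i)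
  omega

/-- The noncompact case. -/
theorem un_all (hp : s 0 * s 1 * s 2 * s 3 = 1) (hg : Subgroup.closure (Set.range s) = ⊤)
    (hnc : ∃ x y : G, x * y ≠ y * x) (hnt : ∃ u, Tr s u ∧ ¬ Tree u) (h1 : ∀ i, s i ≠ 1)
    (h2 : ∃ i, orderOf (s i) ≠ 2) (hS : Shim s lam z) : Nat.card G ≤ 86 := by
  by_cases hadj : ∀ t, Tr s t → Tree t → ¬ Tree (ro t)
  · exact (un_free hp hg hadj h1 h2 hS).trans (by norm_num)
  · push Not at hadj
    obtain ⟨t, ht, t1, t2⟩ := hadj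
    have hpt := tr_prod ht hp
    -- first reduce to `t 0, t 1 ∈ ⟨a⟩`
    have key : ∀ t, Tr s t → (t 0 ∈ Subgroup.zpowers (t 0 * t 1) ∧ t 1 ∈ Subgroup.zpowers (t 0 * t 1)) →
        Tree (ro t) → Nat.card G ≤ 86 := by
      intro t ht m t2
      have hpt := tr_prod ht hp
      rcases t2 with ⟨n1, n2⟩ | ⟨n3, n0⟩
      · exact un_adj1 hp hg hnc hnt h1 h2 hS t ht m.1 m.2 n1 n2
      · -- `t 3, t 0 ∈ ⟨t 1 t 2⟩`: the tuple `ro (ro (ro t)) = (t 3, t 0, t 1, t 2)`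
        have hz : Subgroup.zpowers (t 3 * t 0) = Subgroup.zpowers (t 1 * t 2) :=
          zp23 (t := ro t) (tr_prod (Tr.ro _ ht) hp)
        refine un_adj1 hp hg hnc hnt h1 h2 hS (ro (ro (ro t))) (Tr.ro _ (Tr.ro _ (Tr.ro _ ht))) ?_ ?_ ?_ ?_
        · show t 3 ∈ Subgroup.zpowers (t 3 * t 0)
          rw [hz]
          exact n3
        · show t 0 ∈ Subgroup.zpowers (t 3 * t 0)
          rw [hz]
          exact n0
        · exact m.1
        · exact m.2
    rcases t1 with m | m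
    · exact key t ht m t2
    · have hz := zp23 hpt
      refine key (ro (ro t)) (Tr.ro _ (Tr.ro _ ht)) ⟨?_, ?_⟩ ?_
      · show t 2 ∈ Subgroup.zpowers (t 2 * t 3)
        rw [hz]
        exact m.1
      · show t 3 ∈ Subgroup.zpowers (t 2 * t 3)
        rw [hz]
        exact m.2
      · exact (tree_ro2 (ro t) (tr_prod (Tr.ro _ ht) hp)).2 t2

end Pool.Agent.H78.UN
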