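import Pool.Agent.H78.UN.Main
import Pool.Agent.H78.UN.Cpt
import Pool.Agent.H78.UN.Cpt2

set_option autoImplicit false

/-!
PROJECT UN (MP_bf82d2_ag, uniformisation), module MainC: all collisions of compact type.
-/

namespace Pool.Agent.H78.UN

open Finset Module

variable {G : Type} [Group G] [Fintype G] {s : Fin 4 → G}

/-- The compact case. -/
theorem un_compact (hp : s 0 * s 1 * s 2 * s 3 = 1) (hg : Subgroup.closure (Set.range s) = ⊤)
    (hnc : ∃ x y : G, x * y ≠ y * x) (hall : ∀ t, Tr s t → Tree t) (h1 : ∀ i, s i ≠ 1)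
    (h2 : ∃ i, orderOf (s i) ≠ 2) (M : Submodule ℂ (G → ℂ)) (hS : ShimC s M) : Nat.card G ≤ 172 := by
  obtain ⟨t, ht, hc, hz⟩ := all_tree hp hg hnc hall
  have hpt := tr_prod ht hp
  have hgt := tr_gen ht hg
  have hcomm : ∀ g, g * t 0 = t 0 * g := fun g => Subgroup.mem_center_iff.1 hc g
  -- the elements `x = t 0 t 1`, `y = t 0 t 2`, `d = t 3 t 0`
  have hd : t 0 * t 1 * (t 0 * t 2) = t 0 * t 0 * (t 3 * t 0)⁻¹ := by
    have h3 : t 1 * t 2 = (t 0)⁻¹ * (t 3)⁻¹ := by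
      have h4 : t 0 * (t 1 * t 2) * t 3 = 1 := by
        rw [← mul_assoc, hpt]
      have h5 : t 0 * (t 1 * t 2) = (t 3)⁻¹ := eq_inv_of_mul_eq_one_left h4
      rw [← h5, inv_mul_cancel_left]
    calc t 0 * t 1 * (t 0 * t 2) = t 0 * (t 1 * t 0) * t 2 := by group
      _ = t 0 * (t 0 * t 1) * t 2 := by rw [hcomm (t 1)]
      _ = t 0 * t 0 * (t 1 * t 2) := by group
      _ = t 0 * t 0 * (t 3 * t 0)⁻¹ := by rw [h3, mul_inv_rev]
  have hgen : Subgroup.closure {t 0 * t 1, t 0 * t 2} = ⊤ := by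
    set K := Subgroup.closure {t 0 * t 1, t 0 * t 2} with hK
    have k1 : t 0 * t 1 ∈ K := Subgroup.subset_closure (Or.inl rfl)
    have k2 : t 0 * t 2 ∈ K := Subgroup.subset_closure (Or.inr rfl)
    have k0 : t 0 ∈ K := (Subgroup.zpowers_le.2 k1) hz
    have k1' : t 1 ∈ K := (K.mul_mem_cancel_left k0).1 k1
    have k2' : t 2 ∈ K := (K.mul_mem_cancel_left k0).1 k2
    have k3' : t 3 ∈ K := by
      have h3 : t 3 = (t 0 * t 1 * t 2)⁻¹ := eq_inv_of_mul_eq_one_right hpt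
      rw [h3]
      exact K.inv_mem (K.mul_mem k1 k2')
    rw [eq_top_iff, ← hgt, Subgroup.closure_le]
    rintro _ ⟨i, rfl⟩
    fin_cases i
    · exact k0
    · exact k1'
    · exact k2'
    · exact k3'
  have hr : finrank ℂ M ≤ 4 := quad_dim M hS.right (t 0 * t 1) (t 0 * t 2) (t 0) (t 3 * t 0) hgen hc hz hd
    (hS.quad t ht) (hS.quad (w t) (Tr.ro _ (Tr.hs _ ht))) (hS.quad (ro (ro (ro t))) (Tr.ro _ (Tr.ro _ (Tr.ro _ ht))))
  have h4 := hS.noether
  have h5 : (finrank ℂ M : ℝ) ≤ 4 := by exact_mod_cast hr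
  refine noether4 (Nat.card G) (fun i => orderOf (s i)) (fun i => ?_) h2 (by linarith)
  have h6 := orderOf_pos (s i)
  have h7 : orderOf (s i) ≠ 1 := fun h8 => h1 i (orderOf_eq_one_iff.1 h8)
  show 2 ≤ orderOf (s i)
  omega

end Pool.Agent.H78.UN
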